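import Pool.Agent.Work.MP_1e0b64_lc.X.Seg

/-!
The column machine of a constraint satisfaction problem on a plane tree.
-/

namespace Pool.Agent.Work.MP_1e0b64_lc.X

open Finset

/-- The slots that carry values. -/
def used (k g : ℕ) : Prop := g < 2 * k ∨ 2 * k + 2 ≤ g ∧ g < 4 * k + 2

/-- The list of columns of the node `u`. -/
def seg (n R k : ℕ) (ht : ℕ → ℕ) (bad : ℕ → ℕ → ℕ → ℕ → ℕ → Bool) (u : ℕ) : List Col :=
  updL n (n * R + 1) (2 * k + 1) (ht u % 2) ++
    chk n (n * R + 1) (4 * k + 2) (fun g => nu g (ht u + 1)) (bad u)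

/-- Solutions of the constraints. -/
def Sol (n R k : ℕ) (ht : ℕ → ℕ) (ch σ : ℕ → ℕ → ℕ) (bad : ℕ → ℕ → ℕ → ℕ → ℕ → Bool)
    (y : ℕ → ℕ → ℕ) : Prop :=
  ∀ u < R, (∀ g, used k g → y u g < n ∧ (g % 2 ≠ ht u % 2 →
    y u g = if ht u = 0 then 0 else y (ch u (3 * g)) (σ u (3 * g) / 3))) ∧
    ∀ g < 4 * k + 2, ∀ g' < 4 * k + 2, bad u g (y u g) g' (y u g') = false

/-- The strip maps respect the slots. -/
def Slots (k : ℕ) (ch σ : ℕ → ℕ → ℕ) : Prop :=
  ∀ u, ∀ g < 4 * k + 4, ∃ g' < 4 * k + 4, g' % 2 = g % 2 ∧ (used k g → used k g') ∧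
    ∀ r < 3, ch u (3 * g + r) = ch u (3 * g) ∧ σ u (3 * g + r) = 3 * g' + r

variable {n R k : ℕ} {pa ht : ℕ → ℕ} {μ ch σ : ℕ → ℕ → ℕ} {bad : ℕ → ℕ → ℕ → ℕ → ℕ → Bool}

theorem seg_len (u : ℕ) : (seg n R k ht bad u).length =
    (2 * k + 1) * n + (4 * k + 2) * ((4 * k + 2) * ((n * R + 1) * (n * R + 1))) := by
  simp [seg, updL, chk, List.length_flatMap]

theorem in_slot (hT : PT R (2 * (6 * k + 6)) pa μ ht ch σ) (hs : Slots k ch σ) (E : ℕ → ℕ → ℕ)
    {u g : ℕ} (hu : u < R) (hg : g < 4 * k + 4) :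
    (ht u = 0 ∧ ∀ s, In (2 * (6 * k + 6)) ht ch σ E u s = 0) ∨
    ∃ c < R, ∃ g' < 4 * k + 4, ht u = ht c + 1 ∧ g' % 2 = g % 2 ∧ (used k g → used k g') ∧
      ch u (3 * g) = c ∧ σ u (3 * g) / 3 = g' ∧
      ∀ r < 3, In (2 * (6 * k + 6)) ht ch σ E u (3 * g + r) = E c (3 * g' + r) := by
  by_cases b : ht u = 0
  · exact Or.inl ⟨b, fun s => if_neg fun e => e.2 b⟩
  obtain ⟨g', a1, a2, a3, a4⟩ := hs u g hg
  have := (a4 0 (by omega)).2
  refine Or.inr ⟨_, (hT.pred_lt u hu (3 * g) (by omega) b).1, g', a1, hT.ht_ch hu (by omega) b,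
    a2, a3, rfl, by rw [add_zero] at this; omega, fun r hr => ?_⟩
  rw [In, if_pos ⟨by omega, b⟩, (a4 r hr).1, (a4 r hr).2]

theorem nu_par {g g' : ℕ} (h : g' % 2 = g % 2) (t : ℕ) : nu g' t = nu g t := by
  unfold nu
  rw [h]

theorem csp_sound (hT : PT R (2 * (6 * k + 6)) pa μ ht ch σ) (hs : Slots k ch σ) (hn : 0 < n)
    (hb : ∀ u g a g' b, bad u g a g' b = true → used k g ∧ used k g') {E : ℕ → ℕ → ℕ}
    (h : ∀ u < R, Reach (2 * (6 * k + 6)) (seg n R k ht bad u)
      (In (2 * (6 * k + 6)) ht ch σ E u) (E u)) :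
    Sol n R k ht ch σ bad fun u g => E u (3 * g + 1) % n := by
  have h1 : ∀ u < R, (∀ g, _) ∧ _ := fun u hu => by
    obtain ⟨B, b1, b2⟩ := (reach_append _ _ _ _).1 (h u hu)
    obtain ⟨e, b3⟩ := chk_sound (by omega) b2
    rw [← e] at b1 b3
    exact ⟨updL_sound (Nat.mod_lt _ two_pos) (by omega) _ _ b1, b3⟩
  have key : ∀ u < R, ∀ g < 4 * k + 4, E u (3 * g + 1) ≤ n * (ht u + 1) ∧
      (used k g → n * nu g (ht u + 1) ≤ E u (3 * g + 1) + E u (3 * g + 2)) := by
    intro u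
    induction hi : ht u using Nat.strong_induction_on generalizing u with
    | _ t ih =>
      intro hu g hg
      have a := (h1 u hu).1 g
      subst hi
      rw [nu_succ, Nat.mul_succ]
      rcases in_slot hT hs E hu hg with ⟨b, c⟩ | ⟨c, hc, g', hg', c1, c2, c3, -, -, c4⟩
      · simp only [c] at a
        rw [b, show nu g 0 = 0 by unfold nu; omega] at *
        unfold used
        split_ifs at * <;> omega
      · have := ih _ (by omega) c rfl hc g' hg'
        rw [c4 1 (by omega), c4 2 (by omega)] at a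
        rw [← c1, nu_par c2] at this
        unfold used at *
        split_ifs at * <;> omega
  intro u hu
  have hl : n * (ht u + 1) ≤ n * R := Nat.mul_le_mul_left _ (hT.ht_lt hu)
  refine ⟨fun g hg => ⟨Nat.mod_lt _ hn, fun e => ?_⟩, fun g hg g' hg' => by_contra fun e => ?_⟩
  · have a := (h1 u hu).1 g
    rw [if_neg fun e' => e e'.1] at a
    rcases in_slot hT hs E hu (show g < 4 * k + 4 by unfold used at hg; omega) with
      ⟨b, c⟩ | ⟨c, hc, g', hg', c1, -, -, c2, c3, c4⟩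
    · simp [a.1, b, c]
    · simp only [a.1, c4 1 (by omega), c2, c3, if_neg (show ht u ≠ 0 by omega)]
  · obtain ⟨u1, u2⟩ := hb _ _ _ _ _ (by simpa using e)
    have a1 := key u hu g (by omega)
    have a2 := key u hu g' (by omega)
    exact e ((h1 u hu).2 g hg g' hg' (by omega) (a1.2 u1) (by omega) (a2.2 u2))

theorem csp_complete (hT : PT R (2 * (6 * k + 6)) pa μ ht ch σ) (hs : Slots k ch σ)
    (hb : ∀ u g a g' b, bad u g a g' b = true → used k g ∧ used k g') {y : ℕ → ℕ → ℕ}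
    (hy : Sol n R k ht ch σ bad y) : ∃ E : ℕ → ℕ → ℕ, ∀ u < R,
      Reach (2 * (6 * k + 6)) (seg n R k ht bad u) (In (2 * (6 * k + 6)) ht ch σ E u) (E u) := by
  classical
  let J : ℕ → (ℕ → ℕ) → Prop := fun u B => (∀ g, B (3 * g) = 0) ∧ ∀ g < 4 * k + 4,
    B (3 * g + 1) + B (3 * g + 2) ≤ n * (ht u + 1) ∧ (used k g →
      B (3 * g + 1) + B (3 * g + 2) = n * nu g (ht u + 1) ∧ B (3 * g + 1) % n = y u g)
  have step : ∀ E : ℕ → ℕ → ℕ, ∀ u, ∃ B, u < R → (∀ c < R, ht c < ht u → J c (E c)) →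
      Reach (2 * (6 * k + 6)) (seg n R k ht bad u) (In (2 * (6 * k + 6)) ht ch σ E u) B ∧ J u B := by
    intro E u
    by_cases H : u < R ∧ ∀ c < R, ht c < ht u → J c (E c)
    swap
    · exact ⟨fun _ => 0, fun a b => absurd ⟨a, b⟩ H⟩
    obtain ⟨hu, H⟩ := H
    set C := In (2 * (6 * k + 6)) ht ch σ E u with hC
    have hl : n * (ht u + 1) ≤ n * R := Nat.mul_le_mul_left _ (hT.ht_lt hu)
    have c0 : ∀ g, C (3 * g) = 0 := fun g => by
      by_cases hg : g < 4 * k + 4
      · rcases in_slot hT hs E hu hg with ⟨-, c⟩ | ⟨c, hc, g', -, c1, -, -, -, -, c4⟩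
        · exact c _
        · exact (c4 0 (by omega)).trans ((H c hc (by omega)).1 g')
      · exact if_neg fun e => by omega
    have c1 : ∀ g < 4 * k + 4, C (3 * g + 1) + C (3 * g + 2) ≤ n * ht u ∧ (used k g →
        C (3 * g + 1) + C (3 * g + 2) = n * nu g (ht u) ∧
        (g % 2 ≠ ht u % 2 → C (3 * g + 1) % n = y u g)) := fun g hg => by
      rcases in_slot hT hs E hu hg with ⟨b, c⟩ | ⟨c, hc, g', hg', c1, c2, c3, c5, c6, c4⟩
      · rw [← hC] at c
        refine ⟨by simp [c], fun hg' => ⟨by simp [c, b, show nu g 0 = 0 by unfold nu; omega],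
          fun e => ?_⟩⟩
        rw [((hy u hu).1 g hg').2 e, if_pos b, c, Nat.zero_mod]
      · rw [← hC] at c4
        have := (H c hc (by omega)).2 g' hg'
        rw [← c1, nu_par c2, ← c4 1 (by omega), ← c4 2 (by omega)] at this
        refine ⟨this.1, fun hg' => ⟨(this.2 (c3 hg')).1, fun e => ?_⟩⟩
        rw [((hy u hu).1 g hg').2 e, if_neg (by omega), c5, c6, (this.2 (c3 hg')).2]
    rw [Nat.mul_succ] at hl
    obtain ⟨B, b1, b2, b3⟩ := updL_complete (S := 2 * (6 * k + 6)) (I := n * R + 1)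
      (m := 2 * k + 1) (Nat.mod_lt (ht u) two_pos) (by omega) C
      (fun j => min n ((y u (2 * j + ht u % 2) +
        (n - C (3 * (2 * j + ht u % 2) + 1) % n)) % n))
      (fun _ => min_le_left _ _) c0 fun g hg => by
        have := (c1 g (by omega)).1
        omega
    have j1 : J u B := by
      refine ⟨b2, fun g hg => ?_⟩
      have a1 := c1 g hg
      have a2 := b3 g
      have a3 := min_le_left n ((y u (2 * (g / 2) + ht u % 2) +
        (n - C (3 * (2 * (g / 2) + ht u % 2) + 1) % n)) % n)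
      rw [nu_succ, Nat.mul_succ]
      refine ⟨by split_ifs at a2 <;> omega, fun hg' => ⟨?_, ?_⟩⟩
      · have := (a1.2 hg').1
        unfold used at hg'
        split_ifs at * <;> omega
      · by_cases e : g % 2 = ht u % 2
        · have h2 := ((hy u hu).1 g hg').1
          have h3 := Nat.mod_lt (C (3 * g + 1)) (show 0 < n by omega)
          rw [if_pos (by unfold used at hg'; omega), show 2 * (g / 2) + ht u % 2 = g by omega,
            min_eq_right (Nat.mod_lt _ (by omega)).le] at a2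
          rw [a2.1, Nat.add_mod_mod, ← Nat.mod_add_mod, show C (3 * g + 1) % n + (y u g +
            (n - C (3 * g + 1) % n)) = y u g + n by omega, Nat.add_mod_right, Nat.mod_eq_of_lt h2]
        · rw [if_neg fun e' => e e'.1] at a2
          rw [a2.1, (a1.2 hg').2 e]
    have lt : ∀ g, used k g → g < 4 * k + 4 := fun g hg => by
      unfold used at hg
      omega
    refine ⟨B, fun _ _ => ⟨(reach_append _ _ _ _).2 ⟨B, b1, chk_complete (by omega) b2
      (fun g hg => ?_) (fun g a g' b e => ?_) fun g hg g' hg' => by_contra fun e => ?_⟩, j1⟩⟩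
    · have := (j1.2 g (by omega)).1
      rw [Nat.mul_succ] at this
      omega
    · obtain ⟨u1, u2⟩ := hb _ _ _ _ _ e
      exact ⟨((j1.2 g (lt g u1)).2 u1).1, ((j1.2 g' (lt g' u2)).2 u2).1⟩
    · obtain ⟨u1, u2⟩ := hb _ _ _ _ _ (by simpa using e)
      rw [((j1.2 g (lt g u1)).2 u1).2, ((j1.2 g' (lt g' u2)).2 u2).2] at e
      exact e ((hy u hu).2 g hg g' hg')
  choose f hf using step
  have key : ∀ t, ∃ E : ℕ → ℕ → ℕ, ∀ u < R, ht u < t → Reach (2 * (6 * k + 6))
      (seg n R k ht bad u) (In (2 * (6 * k + 6)) ht ch σ E u) (E u) ∧ J u (E u) := by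
    intro t
    induction t with
    | zero => exact ⟨fun _ _ => 0, fun _ _ h => absurd h (Nat.not_lt_zero _)⟩
    | succ t ih =>
      obtain ⟨E, hE⟩ := ih
      refine ⟨fun u => if ht u < t then E u else f E u, fun u hu h => ?_⟩
      have e : In (2 * (6 * k + 6)) ht ch σ (fun u => if ht u < t then E u else f E u) u =
          In (2 * (6 * k + 6)) ht ch σ E u := by
        funext s
        unfold In
        by_cases b : s < 2 * (6 * k + 6) ∧ ht u ≠ 0
        · have := hT.ht_ch hu b.1 b.2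
          simp only [if_pos b, if_pos (show ht (ch u s) < t by omega)]
        · simp only [if_neg b]
      rw [e]
      by_cases b : ht u < t
      · simpa only [if_pos b] using hE u hu b
      · simpa only [if_neg b] using hf E u hu fun c hc h' => (hE c hc (by omega)).2
  obtain ⟨E, hE⟩ := key R
  exact ⟨E, fun u hu => (hE u hu (hT.ht_lt hu)).1⟩

end Pool.Agent.Work.MP_1e0b64_lc.X
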