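import Pool.Agent.Work.MP_1e0b64_lc.Defs

/-!
Statement level definitions: treewidth and alternating machines.
-/

namespace Pool.Agent.Work.MP_1e0b64_lc.X

/-- `G` has a tree decomposition of width at most `w`: a finite tree with bags of at most `w + 1`
vertices, such that the nodes whose bag contains a given vertex induce a connected (so nonempty)
subgraph and every edge lies in a bag. -/
def TreewidthLE {V : Type} (G : SimpleGraph V) (w : ℕ) : Prop :=
  ∃ (m : ℕ) (T : SimpleGraph (Fin m)) (bag : Fin m → Finset V), T.IsTree ∧
    (∀ i, (bag i).card ≤ w + 1) ∧ (∀ v, (T.induce {i | v ∈ bag i}).Connected) ∧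
    ∀ u v, G.Adj u v → ∃ i, u ∈ bag i ∧ v ∈ bag i

/-- An alternating Turing machine: a nondeterministic machine with universal states; a universal
state `q` branches into the two states `br q false` and `br q true`. -/
structure ATM extends NTM where
  univ : Fin a → Bool
  br : Fin a → Bool → Fin a

/-- `M.Acc x s T d t c`: from the configuration `c` there is an accepting computation tree on the
input `x` that visits only the first `s` work cells, has at most `d` universal steps on each path,
at most `t` steps before the first universal step and at most `T` steps after each universal step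
before the next one. -/
inductive ATM.Acc (M : ATM) (x : List Bool) (s T : ℕ) : ℕ → ℕ → NCfg M.toNTM → Prop
  | acc {d t : ℕ} {c : NCfg M.toNTM} : c.head < s → M.acc c.q = true → ATM.Acc M x s T d t c
  | step {d t : ℕ} {c c' : NCfg M.toNTM} : c.head < s → M.univ c.q = false →
      M.toNTM.Step x c c' → ATM.Acc M x s T d t c' → ATM.Acc M x s T d (t + 1) c
  | all {d t : ℕ} {c : NCfg M.toNTM} : c.head < s → M.univ c.q = true →
      (∀ b, ATM.Acc M x s T d T ⟨M.br c.q b, c.pos, c.tape, c.head⟩) →
      ATM.Acc M x s T (d + 1) t c

/-- Acceptance from the blank start configuration. -/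
def ATM.Accepts (M : ATM) (x : List Bool) (s T d : ℕ) : Prop :=
  M.Acc x s T d T ⟨M.start, 0, fun _ => false, 0⟩

end Pool.Agent.Work.MP_1e0b64_lc.X
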