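import Pool.Agent.Work.MP_1e0b64_lc.Grid2
import Pool.Agent.Work.MP_1e0b64_lc.X.Defs

/-!
The bundle graph with an arbitrary function `U` for the upper ends.
-/

namespace Pool.Agent.Work.MP_1e0b64_lc.X

open SimpleGraph Finset

/-- `z` is a middle vertex and `z'` one of its neighbours. -/
def rel (U : ℕ → ℕ → ℕ) (K : ℕ) (W : ℕ → ℕ → ℕ) (z z' : ℕ) : Prop :=
  z % (6 * K) ≠ 0 ∧ (z' = z / (6 * K) * (6 * K) ∨
    z % K < W (z / (6 * K)) (z % (6 * K) / K) ∧
      z' = U (z / (6 * K)) (z % (6 * K) / K) * (6 * K))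

/-- The grid graph. -/
def Gr (U : ℕ → ℕ → ℕ) (Q K : ℕ) (W : ℕ → ℕ → ℕ) : SimpleGraph (Fin (Q * (6 * K) + 1)) where
  Adj u v := rel U K W u v ∨ rel U K W v u
  symm := ⟨fun _ _ h => h.symm⟩
  loopless := ⟨fun u h => by
    rcases or_self_iff.1 h with ⟨h1, h2 | ⟨-, h2⟩⟩ <;> exact h1 (h2 ▸ Nat.mul_mod_left _ _)⟩

open Classical in
/-- The weight of a cut of the nodes. -/
noncomputable def wq (U : ℕ → ℕ → ℕ) (Q : ℕ) (W : ℕ → ℕ → ℕ) (s : ℕ → Prop) : ℕ :=
  ∑ q ∈ range Q, ∑ d ∈ range 6, if (s q ↔ s (U q d)) then 0 else W q d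

/-- `s` is the set of descendants of `c` for the directions `δ`. -/
def IsDq (U : ℕ → ℕ → ℕ) (Q : ℕ) (δ : ℕ → ℕ) (c : ℕ) (s : ℕ → Prop) : Prop :=
  s c ∧ ¬ s Q ∧ ∀ q < Q, q ≠ c → (s q ↔ s (U q (δ q)))

/-- The upper ends are nodes of smaller rank. -/
structure UOk (U : ℕ → ℕ → ℕ) (Q : ℕ) (W : ℕ → ℕ → ℕ) (ρ : ℕ → ℕ) : Prop where
  le : ∀ q d, U q d ≤ Q
  lt : ∀ q < Q, ∀ d, 0 < W q d → ρ (U q d) < ρ q

variable {U : ℕ → ℕ → ℕ} {Q K : ℕ} {W : ℕ → ℕ → ℕ} {ρ : ℕ → ℕ}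

/-- The bundle structure of the grid graph. -/
def bun (hP : UOk U Q W ρ) (hK : 0 < K) : Bun (Gr U Q K W) where
  mid z := z.val % (6 * K) ≠ 0
  act z := z.val % K < W (z / (6 * K)) (z % (6 * K) / K)
  lo z := vx Q K (z / (6 * K) * (6 * K))
  up z := vx Q K (U (z / (6 * K)) (z % (6 * K) / K) * (6 * K))
  root := vx Q K (Q * (6 * K))
  rk z := ρ (z / (6 * K))
  adj u v := by simp only [Gr, rel, Fin.ext_iff, vx_node (div_le _), vx_node (hP.le _ _)]
  nlo m := by simp [vx_node (div_le m)]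
  nup m := by simp [vx_node (hP.le _ _)]
  nroot := by simp [vx_node le_rfl]
  lroot m h e := by
    have := congrArg Fin.val e
    rw [vx_node (div_le m), vx_node le_rfl, Nat.mul_left_inj (by omega)] at this
    exact (mid_lt hK m h).ne this
  rlt m h a := by
    rw [vx_node (div_le m), vx_node (hP.le _ _), Nat.mul_div_cancel _ (by omega),
      Nat.mul_div_cancel _ (by omega)]
    exact hP.lt _ (mid_lt hK m h) _ (lt_of_le_of_lt (Nat.zero_le _) a)

variable (hP : UOk U Q W ρ) (hK : 0 < K) (h0 : ∀ q, W q 0 = 0) (hW : ∀ q d, W q d ≤ K)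

theorem lo_div (z : Fin (Q * (6 * K) + 1)) :
    ((bun hP hK).lo z).val / (6 * K) = z / (6 * K) := by
  simp only [bun, vx_node (div_le _)]
  exact Nat.mul_div_cancel _ (by omega)

theorem up_div (z : Fin (Q * (6 * K) + 1)) :
    ((bun hP hK).up z).val / (6 * K) = U (z / (6 * K)) (z % (6 * K) / K) := by
  simp only [bun, vx_node (hP.le _ _)]
  exact Nat.mul_div_cancel _ (by omega)

theorem root_div : ((bun hP hK).root).val / (6 * K) = Q := by
  simp only [bun, vx_node le_rfl]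
  exact Nat.mul_div_cancel _ (by omega)

theorem node_lt {z : Fin (Q * (6 * K) + 1)} (h : z ≠ (bun hP hK).root) : z.val / (6 * K) < Q :=
  div_lt hK z fun e => h (Fin.ext (e.trans (vx_node le_rfl).symm))

theorem node_inj {z c : Fin (Q * (6 * K) + 1)} (h1 : ¬ (bun hP hK).mid z)
    (h2 : ¬ (bun hP hK).mid c) (e : z.val / (6 * K) = c / (6 * K)) : z = c :=
  Fin.ext (by rw [node_eq h1, e, ← node_eq h2])

include h0 hW in
theorem wc_eq (s : ℕ → Prop) :
    (bun hP hK).wc (fun z => s (z / (6 * K))) = wq U Q W s := by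
  classical
  simp only [Bun.wc, lo_div, up_div]
  simp only [bun]
  rw [Set.ncard_eq_toFinset_card', Set.toFinset_ofPred, card_filter]
  refine (Fin.sum_univ_eq_sum_range (fun z => if z % (6 * K) ≠ 0 ∧
    z % K < W (z / (6 * K)) (z % (6 * K) / K) ∧ ¬ (s (z / (6 * K)) ↔
      s (U (z / (6 * K)) (z % (6 * K) / K))) then 1 else 0) _).trans ?_
  rw [sum_range_succ, if_neg (by simp), add_zero, sum_range_mul]
  refine sum_congr rfl fun q _ => ?_
  rw [sum_range_mul]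
  refine sum_congr rfl fun d hd => ?_
  have e : ∀ t ∈ range K, (if (q * (6 * K) + (d * K + t)) % (6 * K) ≠ 0 ∧
      (q * (6 * K) + (d * K + t)) % K < W ((q * (6 * K) + (d * K + t)) / (6 * K))
        ((q * (6 * K) + (d * K + t)) % (6 * K) / K) ∧
      ¬ (s ((q * (6 * K) + (d * K + t)) / (6 * K)) ↔ s (U ((q * (6 * K) + (d * K + t)) /
        (6 * K)) ((q * (6 * K) + (d * K + t)) % (6 * K) / K))) then 1 else 0) =
      if t < W q d ∧ ¬ (s q ↔ s (U q d)) then 1 else 0 := by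
    intro t ht
    rw [mem_range] at ht hd
    have hy : d * K + t < 6 * K := by nlinarith
    rw [div_eq q hy, mod_eq q hy, div_eq d ht, show q * (6 * K) + (d * K + t) =
      (q * 6 + d) * K + t by ring, mod_eq _ ht]
    refine if_congr ⟨fun h => h.2, fun h => ⟨fun e => ?_, h⟩⟩ rfl rfl
    obtain rfl : d = 0 := by
      by_contra hd
      nlinarith [Nat.pos_of_ne_zero hd]
    simp [h0] at h
  rw [sum_congr rfl e]
  split_ifs with h
  · simp [h]
  · simp only [h, not_false_iff, and_true, ← card_filter]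
    rw [show filter (fun t => t < W q d) (range K) = range (W q d) from by
      ext t
      have := hW q d
      simp only [mem_filter, mem_range]
      omega, card_range]

include h0 in
theorem exists_ch {δ : ℕ → ℕ} (hδ : ∀ q < Q, δ q < 6 ∧ 0 < W q (δ q)) :
    ∃ ch, (bun hP hK).Ch ch ∧ ∀ z, z ≠ (bun hP hK).root →
      ((bun hP hK).up (ch z)).val / (6 * K) = U (z / (6 * K)) (δ (z / (6 * K))) := by
  have key : ∀ z : Fin (Q * (6 * K) + 1), z ≠ (bun hP hK).root →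
      (vx Q K (z / (6 * K) * (6 * K) + δ (z / (6 * K)) * K)).val / (6 * K) = z / (6 * K) ∧
      (vx Q K (z / (6 * K) * (6 * K) + δ (z / (6 * K)) * K)).val % (6 * K) =
        δ (z / (6 * K)) * K := by
    intro z hz
    have h1 := node_lt hP hK hz
    have h2 : δ (z / (6 * K)) * K < 6 * K := Nat.mul_lt_mul_of_pos_right (hδ _ h1).1 hK
    rw [vx_mid h1 h2, div_eq _ h2, mod_eq _ h2]
    exact ⟨rfl, rfl⟩
  refine ⟨fun z => vx Q K (z / (6 * K) * (6 * K) + δ (z / (6 * K)) * K), fun z z1 z2 => ?_,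
    fun z z2 => by rw [up_div, (key z z2).1, (key z z2).2, Nat.mul_div_cancel _ hK]⟩
  obtain ⟨k1, k2⟩ := key z z2
  have h1 := (hδ _ (node_lt hP hK z2)).2
  refine ⟨fun e => ?_, ?_, node_inj hP hK ((bun hP hK).nlo _) z1 (by rw [lo_div, k1])⟩
  · rw [k2, Nat.mul_eq_zero, or_iff_left hK.ne'] at e
    simp [e, h0] at h1
  · show _ % K < W _ _
    rw [← Nat.mod_mod_of_dvd _ (Dvd.intro_left 6 rfl : K ∣ 6 * K), k1, k2, Nat.mul_mod_left,
      Nat.mul_div_cancel _ hK]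
    exact h1

include hP hK h0 in
theorem gr_connected {δ : ℕ → ℕ} (hδ : ∀ q < Q, δ q < 6 ∧ 0 < W q (δ q)) :
    (Gr U Q K W).Connected := by
  obtain ⟨ch, h, -⟩ := exists_ch hP hK h0 hδ
  exact (bun hP hK).connected h

include hP h0 hW in
theorem gr_complete (hK2 : 2 ≤ K) {δ : ℕ → ℕ} (hδ : ∀ q < Q, δ q < 6 ∧ 0 < W q (δ q))
    (h : ∀ c < Q, ∃ s, IsDq U Q δ c s ∧ wq U Q W s ≤ K) : stc (Gr U Q K W) ≤ K := by
  have hK : 0 < K := by omega
  obtain ⟨ch, h1, h2⟩ := exists_ch hP hK h0 hδ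
  refine (stc_le_iff (gr_connected hP hK h0 hδ) K).2 ((bun hP hK).complete h1 hK2 ?_)
  intro c c1 c2
  obtain ⟨s, s1, s2⟩ := h _ (node_lt hP hK c2)
  refine ⟨fun z => s (z / (6 * K)), ⟨s1.1, by simpa only [root_div] using s1.2.1, fun z z1 z2 z3 => ?_⟩,
    (wc_eq hP hK h0 hW s).trans_le s2⟩
  simp only [h2 z z2]
  exact s1.2.2 _ (node_lt hP hK z2) fun e => z3 (node_inj hP hK z1 c1 e)

theorem le_wq (s : ℕ → Prop) {q d q' d' : ℕ} (h1 : q < Q) (h2 : d < 6) (h3 : q' < Q) (h4 : d' < 6)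
    (hne : q ≠ q') (h5 : ¬ (s q ↔ s (U q d))) (h6 : ¬ (s q' ↔ s (U q' d'))) :
    W q d + W q' d' ≤ wq U Q W s := by
  classical
  refine le_trans (add_le_add ?_ ?_) (add_le_sum (fun _ _ => Nat.zero_le _)
    (mem_range.2 h1) (mem_range.2 h3) hne)
  · exact (if_neg h5).ge.trans (single_le_sum (f := fun d => if (s q ↔ s (U q d)) then 0
      else W q d) (fun _ _ => Nat.zero_le _) (mem_range.2 h2))
  · exact (if_neg h6).ge.trans (single_le_sum (f := fun d => if (s q' ↔ s (U q' d)) then 0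
      else W q' d) (fun _ _ => Nat.zero_le _) (mem_range.2 h4))

include hP hK h0 hW in
theorem gr_sound (hc : (Gr U Q K W).Connected) (χ : ℕ → ℕ)
    (hH : ∀ q < Q, ∀ d < 6, 0 < W q d → χ q ≠ χ (U q d) → K < 2 * W q d)
    (hA : ∀ q < Q, (∃ d < 6, 0 < W q d ∧ χ q ≠ χ (U q d)) ∨
      ∀ q' < Q, ∀ d < 6, 0 < W q' d → U q' d ≠ q) (h : stc (Gr U Q K W) ≤ K) :
    ∃ δ : ℕ → ℕ, (∀ q < Q, δ q < 6 ∧ 0 < W q (δ q)) ∧
      ∀ c < Q, ∀ s, IsDq U Q δ c s → wq U Q W s ≤ K := by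
  classical
  obtain ⟨T, t1, t2, t3⟩ := (stc_le_iff hc K).1 h
  set B := bun hP hK with hB
  have nd : ∀ q ≤ Q, ¬ B.mid (vx Q K (q * (6 * K))) ∧
      (vx Q K (q * (6 * K))).val / (6 * K) = q := fun q hq =>
    ⟨by simp [hB, bun, vx_node hq], by rw [vx_node hq, Nat.mul_div_cancel _ (by omega)]⟩
  have key : ∀ z, ∃ m, ¬ B.mid z → z ≠ B.root → B.Used T m ∧ B.lo m = z := by
    intro z
    by_cases z1 : B.mid z
    · exact ⟨z, fun h => absurd z1 h⟩
    by_cases z2 : z = B.root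
    · exact ⟨z, fun _ h => absurd z2 h⟩
    have hq := node_lt hP hK z2
    rcases hA _ hq with ⟨d, d1, d2, d3⟩ | hI
    · obtain ⟨m, σ, m1, m2, m3, m4, m5⟩ := B.used t1 t2 t3 (fun v => χ (v.val / (6 * K))) z1
        (nd _ (hP.le (z / (6 * K)) d)).1 (by simpa only [(nd _ (hP.le _ _)).2] using d3)
      refine ⟨m, fun _ _ => ⟨m1, by_contra fun hne => ?_⟩⟩
      have e : ∀ v, ¬ B.mid v → vx Q K (v.val / (6 * K) * (6 * K)) = v := fun v hv =>
        node_inj hP hK (nd _ (div_le v)).1 hv (nd _ (div_le v)).2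
      rw [← B.wc_congr (σ := fun v => σ (vx Q K (v.val / (6 * K) * (6 * K))))
        (fun v hv => by rw [e v hv]), wc_eq hP hK h0 hW fun q => σ (vx Q K (q * (6 * K)))] at m5
      have hm := mid_lt hK m m1.1
      have a1 : 0 < W (m / (6 * K)) (m % (6 * K) / K) := lt_of_le_of_lt (Nat.zero_le _) m1.2.1
      simp only [hB, lo_div, up_div] at m2
      have := le_wq (U := U) (W := W) (fun q => σ (vx Q K (q * (6 * K)))) hq d1 hm (dir_lt hK m)
        (fun e' => hne (node_inj hP hK (B.nlo m) z1 ((lo_div hP hK m).trans e'.symm)))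
        (by simpa only [e z z1] using m3) m4
      have := hH _ hq d d1 d2 d3
      have := hH _ hm _ (dir_lt hK m) a1 m2
      omega
    · obtain ⟨m, σ, m1, m2, -⟩ := B.used t1 t2 t3 (fun v => v = z) z1 B.nroot
        (by simpa using Ne.symm z2)
      refine ⟨m, fun _ _ => ⟨m1, by_contra fun hne => ?_⟩⟩
      have hu : B.up m = z := by_contra fun h => m2 (propext (by simp [hne, h]))
      exact hI _ (mid_lt hK m m1.1) _ (dir_lt hK m) (lt_of_le_of_lt (Nat.zero_le _) m1.2.1)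
        ((up_div hP hK m).symm.trans (by rw [← hB, hu]))
  choose ch hch using key
  have nr : ∀ q < Q, vx Q K (q * (6 * K)) ≠ B.root := fun q hq e => by
    have := (nd q hq.le).2
    rw [e, root_div] at this
    omega
  have hd : ∀ z, ¬ B.mid z → z ≠ B.root → (ch z).val / (6 * K) = z / (6 * K) := fun z z1 z2 => by
    rw [← lo_div hP hK, ← hB, (hch z z1 z2).2]
  refine ⟨fun q => (ch (vx Q K (q * (6 * K)))).val % (6 * K) / K, fun q hq => ⟨dir_lt hK _, ?_⟩,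
    fun c hc s hs => ?_⟩
  · have := lt_of_le_of_lt (Nat.zero_le _) (hch _ (nd q hq.le).1 (nr q hq)).1.2.1
    rwa [hd _ (nd q hq.le).1 (nr q hq), (nd q hq.le).2] at this
  rw [← wc_eq hP hK h0 hW]
  refine B.sound t2 t3 hch (nd c hc.le).1 (nr c hc) ⟨by simpa only [(nd c hc.le).2] using hs.1,
    by simpa only [hB, root_div] using hs.2.1, fun z z1 z2 z3 => ?_⟩
  have := hs.2.2 _ (node_lt hP hK z2) fun e => z3 (node_inj hP hK z1 (nd c hc.le).1
    (e.trans (nd c hc.le).2.symm))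
  simp only [node_inj hP hK (nd _ (div_le z)).1 z1 (nd _ (div_le z)).2] at this
  simpa only [hB, up_div, hd z z1 z2] using this

theorem gr_bip (U : ℕ → ℕ → ℕ) (Q K : ℕ) (W : ℕ → ℕ → ℕ) : (Gr U Q K W).IsBipartite := by
  refine ⟨.mk (fun z => if z.val % (6 * K) = 0 then 0 else 1) fun {u v} h => ?_⟩
  rcases h with ⟨h, e | ⟨-, e⟩⟩ | ⟨h, e | ⟨-, e⟩⟩ <;> simp [h, e]

end Pool.Agent.Work.MP_1e0b64_lc.X
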