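import Pool.Agent.Work.MP_1e0b64_lc.X.GrU

/-!
The bundle graph in the coordinates (column, position), and its treewidth.
-/

namespace Pool.Agent.Work.MP_1e0b64_lc.X

open SimpleGraph Finset

theorem induce_conn {V : Type} {root : V} {par : V → V} {rk : V → ℕ}
    (hr : ∀ v, v ≠ root → rk (par v) < rk v) (S : Set V) {t : V} (ht : t ∈ S)
    (h : ∀ i ∈ S, i ≠ t → i ≠ root ∧ par i ∈ S) : ((ptree root par).induce S).Connected := by
  have key : ∀ n (i : S), rk i = n → ((ptree root par).induce S).Reachable i ⟨t, ht⟩ := by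
    intro n
    induction n using Nat.strong_induction_on with
    | _ n ih =>
      intro i e
      by_cases h0 : i.val = t
      · rw [show i = ⟨t, ht⟩ from Subtype.ext h0]
      · obtain ⟨h1, h2⟩ := h i i.2 h0
        have a : ((ptree root par).induce S).Adj i ⟨par i, h2⟩ := ptree_adj hr h1
        exact a.reachable.trans (ih _ (e ▸ hr _ h1) _ rfl)
  have : Nonempty S := ⟨⟨t, ht⟩⟩
  exact ⟨fun a b => (key _ a rfl).trans (key _ b rfl).symm⟩

theorem gr_treewidth {U : ℕ → ℕ → ℕ} {L P K : ℕ} {W : ℕ → ℕ → ℕ} (hK : 0 < K) (hP : 0 < P)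
    (par rk : ℕ → ℕ) (h1 : ∀ c < L, par c ≤ L ∧ rk (par c) < rk c)
    (h2 : ∀ q < L * P, ∀ d, 0 < W q d → U q d / P = q / P ∨ U q d / P = par (q / P)) :
    TreewidthLE (Gr U (L * P) K W) (2 * P) := by
  classical
  have hB : 0 < 6 * K := by omega
  let col : Fin (L * P * (6 * K) + 1) → ℕ := fun z => z.val / (6 * K) / P
  let hub : ℕ → Fin (L * P * (6 * K) + 1) := fun c => vx (L * P) K (c * P * (6 * K))
  have hc : ∀ c ≤ L, col (hub c) = c := fun c hc => by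
    simp only [col, hub, vx_node (Nat.mul_le_mul_right P hc), Nat.mul_div_cancel _ hB,
      Nat.mul_div_cancel _ hP]
  have cle : ∀ z, col z ≤ L := fun z =>
    Nat.div_le_of_le_mul ((div_le z).trans_eq (Nat.mul_comm _ _))
  have clt' : ∀ z : Fin (L * P * (6 * K) + 1), z.val / (6 * K) < L * P → col z < L := fun z h =>
    Nat.div_lt_of_lt_mul (h.trans_eq (Nat.mul_comm _ _))
  have clt : ∀ z, z ≠ hub L → col z < L := fun z hz =>
    clt' z (div_lt hK z fun e => hz (Fin.ext (e.trans (vx_node le_rfl).symm)))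
  let pr : Fin (L * P * (6 * K) + 1) → Fin (L * P * (6 * K) + 1) := fun z =>
    if z = hub (col z) then hub (par (col z)) else hub (col z)
  let rr : Fin (L * P * (6 * K) + 1) → ℕ := fun z =>
    if z = hub (col z) then 2 * rk (col z) else 2 * rk (col z) + 1
  have hr : ∀ z, z ≠ hub L → rr (pr z) < rr z := by
    intro z hz
    have a := h1 _ (clt z hz)
    by_cases e : z = hub (col z)
    · simp only [pr, rr, if_pos e, hc _ a.1, if_true]
      omega
    · simp only [pr, rr, if_neg e, hc _ (cle z), if_true]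
      omega
  refine ⟨_, ptree (hub L) pr, fun z => insert z (univ.filter fun v => v.val % (6 * K) = 0 ∧
    (col v = col z ∨ col z < L ∧ col v = par (col z))), ptree_isTree hr,
    fun z => (card_insert_le _ _).trans (Nat.succ_le_succ ?_), fun v => ?_, ?_⟩
  · refine (card_le_card_of_injOn (t := Ico (col z * P) (col z * P + P) ∪
      Ico (par (col z) * P) (par (col z) * P + P))
      (fun v => v.val / (6 * K)) (fun v hv => ?_) fun v hv w hw e => Fin.ext ?_).trans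
      ((card_union_le _ _).trans (by simp; omega))
    · simp only [coe_filter, mem_univ, true_and, Set.mem_ofPred_eq] at hv
      have a1 := Nat.div_mul_le_self (v.val / (6 * K)) P
      have a2 := Nat.lt_div_mul_add (a := v.val / (6 * K)) hP
      simp only [coe_union, coe_Ico, Set.mem_union, Set.mem_Ico]
      rcases hv.2 with h | h
      · exact Or.inl (h ▸ ⟨a1, a2⟩)
      · exact Or.inr (h.2 ▸ ⟨a1, a2⟩)
    · simp only [coe_filter, mem_univ, true_and, Set.mem_ofPred_eq] at hv hw e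
      rw [node_eq (not_not.2 hv.1), e, ← node_eq (not_not.2 hw.1)]
  · by_cases hv : v.val % (6 * K) = 0
    · refine induce_conn hr _ (t := hub (col v)) (by simp [hv, hc _ (cle v)]) fun i hi hne => ?_
      have hi' : col v = col i ∨ col i < L ∧ col v = par (col i) := by
        simp only [mem_insert, mem_filter, mem_univ, true_and, Set.mem_ofPred_eq] at hi
        rcases hi with rfl | hi
        · exact Or.inl rfl
        · exact hi.2
      have hi0 : i ≠ hub L := fun e => by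
        rw [e, hc L le_rfl] at hi'
        exact hne (by rw [e, hi'.resolve_right (by omega)])
      refine ⟨hi0, ?_⟩
      simp only [mem_insert, mem_filter, mem_univ, true_and, Set.mem_ofPred_eq, hv]
      refine Or.inr ?_
      by_cases e : i = hub (col i)
      · simp only [pr, if_pos e, hc _ (h1 _ (clt i hi0)).1]
        exact Or.inl (hi'.resolve_left fun e' => hne (e' ▸ e)).2
      · simpa only [pr, if_neg e, hc _ (cle i)] using hi'
    · refine induce_conn hr _ (t := v) (by simp) fun i hi hne => ?_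
      simp [hv] at hi
      omega
  · have key : ∀ u v : Fin (L * P * (6 * K) + 1), rel U K W u v → v.val % (6 * K) = 0 ∧
        (col v = col u ∨ col u < L ∧ col v = par (col u)) := by
      rintro u v ⟨a1, a2 | ⟨a2, a3⟩⟩
      · simp only [col]
        rw [a2, Nat.mul_div_cancel _ hB]
        simp
      · have := h2 _ (mid_lt hK u a1) _ (lt_of_le_of_lt (Nat.zero_le _) a2)
        simp only [col]
        rw [a3, Nat.mul_div_cancel _ hB]
        exact ⟨by simp, this.imp id fun h => ⟨clt' u (mid_lt hK u a1), h⟩⟩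
    rintro u v (h | h)
    · exact ⟨u, mem_insert_self _ _, by simp [key u v h]⟩
    · exact ⟨v, by simp [key v u h], mem_insert_self _ _⟩

/-- The upper end in the linear numbering. -/
def Uq (P L : ℕ) (ul : ℕ → ℕ → ℕ) (u2 : ℕ → ℕ → ℕ → ℕ) (q d : ℕ) : ℕ :=
  min (ul (q / P) (q % P) * P + u2 (q / P) (q % P) d) (L * P)

open Classical in
/-- The weight of the macro edges at `(l, p)` that cross the cut `s`. -/
noncomputable def g2 (ul : ℕ → ℕ → ℕ) (u2 W : ℕ → ℕ → ℕ → ℕ) (s : ℕ → ℕ → Prop) (l p : ℕ) : ℕ :=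
  ∑ d ∈ range 6, if (s l p ↔ s (ul l p) (u2 l p d)) then 0 else W l p d

/-- The weight of the cut `s`. -/
noncomputable def w2 (P L : ℕ) (ul : ℕ → ℕ → ℕ) (u2 W : ℕ → ℕ → ℕ → ℕ) (s : ℕ → ℕ → Prop) : ℕ :=
  ∑ l ∈ range L, ∑ p ∈ range P, g2 ul u2 W s l p

/-- `s` is the set of descendants of `(a, b)`. -/
def D2 (P L : ℕ) (ul : ℕ → ℕ → ℕ) (u2 : ℕ → ℕ → ℕ → ℕ) (δ : ℕ → ℕ → ℕ) (a b : ℕ)
    (s : ℕ → ℕ → Prop) : Prop :=
  s a b ∧ ¬ s L 0 ∧
    ∀ l < L, ∀ p < P, ¬ (l = a ∧ p = b) → (s l p ↔ s (ul l p) (u2 l p (δ l p)))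

/-- Admissible directions. -/
def Val (P L : ℕ) (W : ℕ → ℕ → ℕ → ℕ) (δ : ℕ → ℕ → ℕ) : Prop :=
  ∀ l < L, ∀ p < P, δ l p < 6 ∧ 0 < W l p (δ l p)

/-- The graph with `L` columns of `P` nodes. -/
def Gr2 (P L K : ℕ) (ul : ℕ → ℕ → ℕ) (u2 W : ℕ → ℕ → ℕ → ℕ) :
    SimpleGraph (Fin (L * P * (6 * K) + 1)) :=
  Gr (Uq P L ul u2) (L * P) K fun q d => W (q / P) (q % P) d

/-- Conditions on the weights. -/
structure Wok (P L K : ℕ) (ul : ℕ → ℕ → ℕ) (u2 W : ℕ → ℕ → ℕ → ℕ) (ρ : ℕ → ℕ → ℕ) : Prop where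
  hP : 0 < P
  hK : 2 ≤ K
  h0 : ∀ l p, W l p 0 = 0
  le : ∀ l p d, W l p d ≤ K
  inr : ∀ l < L, ∀ p < P, ∀ d, 0 < W l p d → u2 l p d < P ∧
    (ul l p < L ∨ ul l p = L ∧ u2 l p d = 0) ∧ ρ (ul l p) (u2 l p d) < ρ l p

variable {P L K : ℕ} {ul : ℕ → ℕ → ℕ} {u2 W : ℕ → ℕ → ℕ → ℕ} {ρ : ℕ → ℕ → ℕ}

theorem lev_lt {q : ℕ} (h : q < L * P) : q / P < L :=
  Nat.div_lt_of_lt_mul (Nat.mul_comm P _ ▸ h)

theorem idx_lt {l p : ℕ} (h : l < L) (h' : p < P) : l * P + p < L * P := by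
  nlinarith [Nat.mul_le_mul_right P (Nat.succ_le_of_lt h)]

theorem Wok.up (h : Wok P L K ul u2 W ρ) {q d : ℕ} (hq : q < L * P)
    (hw : 0 < W (q / P) (q % P) d) : Uq P L ul u2 q d / P = ul (q / P) (q % P) ∧
      Uq P L ul u2 q d % P = u2 (q / P) (q % P) d := by
  obtain ⟨h1, h2, -⟩ := h.inr _ (lev_lt hq) _ (Nat.mod_lt q h.hP) d hw
  have : Uq P L ul u2 q d = ul (q / P) (q % P) * P + u2 (q / P) (q % P) d := by
    refine min_eq_left ?_
    rcases h2 with h2 | h2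
    · exact (idx_lt h2 h1).le
    · rw [h2.1, h2.2]
      rfl
  rw [this, div_eq _ h1, mod_eq _ h1]
  exact ⟨rfl, rfl⟩

theorem Wok.uok (h : Wok P L K ul u2 W ρ) : UOk (Uq P L ul u2) (L * P)
    (fun q d => W (q / P) (q % P) d) fun q => ρ (q / P) (q % P) :=
  ⟨fun _ _ => min_le_right _ _, fun q hq d hw => by
    simp only [(h.up hq hw).1, (h.up hq hw).2]
    exact (h.inr _ (lev_lt hq) _ (Nat.mod_lt q h.hP) d hw).2.2⟩

theorem Wok.wq_eq (h : Wok P L K ul u2 W ρ) (s : ℕ → ℕ → Prop) :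
    wq (Uq P L ul u2) (L * P) (fun q d => W (q / P) (q % P) d) (fun q => s (q / P) (q % P)) =
      w2 P L ul u2 W s := by
  rw [wq, sum_range_mul]
  refine sum_congr rfl fun l hl => sum_congr rfl fun p hp => sum_congr rfl fun d _ => ?_
  rw [mem_range] at hl hp
  have := h.up (d := d) (idx_lt hl hp)
  rw [div_eq l hp, mod_eq l hp] at this ⊢
  rcases Nat.eq_zero_or_pos (W l p d) with e | e
  · simp [e]
  · rw [(this e).1, (this e).2]

theorem Wok.val (h : Wok P L K ul u2 W ρ) {δ : ℕ → ℕ → ℕ} (hδ : Val P L W δ) :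
    ∀ q < L * P, δ (q / P) (q % P) < 6 ∧ 0 < W (q / P) (q % P) (δ (q / P) (q % P)) :=
  fun q hq => hδ _ (lev_lt hq) _ (Nat.mod_lt q h.hP)

theorem Wok.isD (h : Wok P L K ul u2 W ρ) {δ : ℕ → ℕ} (hδ : ∀ q < L * P,
    0 < W (q / P) (q % P) (δ q)) {c : ℕ} {s : ℕ → ℕ → Prop}
    (hs : D2 P L ul u2 (fun l p => δ (l * P + p)) (c / P) (c % P) s) :
    IsDq (Uq P L ul u2) (L * P) δ c fun q => s (q / P) (q % P) := by
  have hP := h.hP
  refine ⟨hs.1, by simpa [Nat.mul_div_cancel _ hP] using hs.2.1, fun q hq hne => ?_⟩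
  have := hs.2.2 _ (lev_lt hq) _ (Nat.mod_lt q hP) fun e => hne
    (by rw [← Nat.div_add_mod q P, e.1, e.2, Nat.div_add_mod])
  simpa only [(h.up hq (hδ q hq)).1, (h.up hq (hδ q hq)).2, Nat.div_add_mod'] using this

theorem Wok.connected (h : Wok P L K ul u2 W ρ) {δ : ℕ → ℕ → ℕ} (hδ : Val P L W δ) :
    (Gr2 P L K ul u2 W).Connected :=
  gr_connected h.uok (by have := h.hK; omega) (fun _ => h.h0 _ _) (h.val hδ)

theorem Wok.complete (h : Wok P L K ul u2 W ρ) {δ : ℕ → ℕ → ℕ} (hδ : Val P L W δ)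
    (hs : ∀ a < L, ∀ b < P, ∃ s, D2 P L ul u2 δ a b s ∧ w2 P L ul u2 W s ≤ K) :
    stc (Gr2 P L K ul u2 W) ≤ K := by
  refine gr_complete h.uok (fun _ => h.h0 _ _) (fun _ _ => h.le _ _ _) h.hK (h.val hδ)
    fun c hc => ?_
  obtain ⟨s, s1, s2⟩ := hs _ (lev_lt hc) _ (Nat.mod_lt c h.hP)
  refine ⟨_, h.isD (fun q hq => (h.val hδ q hq).2) ⟨s1.1, s1.2.1, fun l hl p hp hne => ?_⟩,
    (h.wq_eq s).trans_le s2⟩
  simpa only [div_eq l hp, mod_eq l hp] using s1.2.2 l hl p hp hne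

theorem Wok.sound (h : Wok P L K ul u2 W ρ) (hc : (Gr2 P L K ul u2 W).Connected) (χ : ℕ → ℕ → ℕ)
    (hH : ∀ l < L, ∀ p < P, ∀ d, 0 < W l p d → χ l p ≠ χ (ul l p) (u2 l p d) → K < 2 * W l p d)
    (hA : ∀ l < L, ∀ p < P, (∃ d < 6, 0 < W l p d ∧ χ l p ≠ χ (ul l p) (u2 l p d)) ∨
      ∀ l' < L, ∀ p' < P, ∀ d, 0 < W l' p' d → u2 l' p' d ≠ p)
    (hs : stc (Gr2 P L K ul u2 W) ≤ K) :
    ∃ δ, Val P L W δ ∧ ∀ a < L, ∀ b < P, ∀ s, D2 P L ul u2 δ a b s → w2 P L ul u2 W s ≤ K := by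
  have hP := h.hP
  obtain ⟨δ, h1, h2⟩ := gr_sound h.uok (by have := h.hK; omega) (fun _ => h.h0 _ _)
    (fun _ _ => h.le _ _ _) hc (fun q => χ (q / P) (q % P))
    (fun q hq d _ hw hx => hH _ (lev_lt hq) _ (Nat.mod_lt q hP) d hw
      (by simpa only [(h.up hq hw).1, (h.up hq hw).2] using hx))
    (fun q hq => (hA _ (lev_lt hq) _ (Nat.mod_lt q hP)).imp
      (fun ⟨d, d1, d2, d3⟩ => ⟨d, d1, d2, by simpa only [(h.up hq d2).1, (h.up hq d2).2] using d3⟩)
      fun hI q' hq' d _ hw e => hI _ (lev_lt hq') _ (Nat.mod_lt q' hP) d hw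
        (by rw [← (h.up hq' hw).2, e])) hs
  refine ⟨fun l p => δ (l * P + p), fun l hl p hp => ?_, fun a ha b hb s hs => ?_⟩
  · simpa only [div_eq l hp, mod_eq l hp] using h1 _ (idx_lt hl hp)
  · rw [← h.wq_eq]
    exact h2 _ (idx_lt ha hb) _ (h.isD (fun q hq => (h1 q hq).2)
      (by rwa [div_eq a hb, mod_eq a hb]))

theorem Wok.treewidth (h : Wok P L K ul u2 W ρ) (par rk : ℕ → ℕ)
    (h1 : ∀ c < L, par c ≤ L ∧ rk (par c) < rk c) (h2 : ∀ l p, ul l p = l ∨ ul l p = par l) :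
    TreewidthLE (Gr2 P L K ul u2 W) (2 * P) :=
  gr_treewidth (by have := h.hK; omega) h.hP par rk h1 fun q hq d hw => by
    rw [(h.up hq hw).1]
    exact h2 _ _

end Pool.Agent.Work.MP_1e0b64_lc.X
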