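import Pool.Agent.Work.MP_1e0b64_lc.X.Tree
import Pool.Agent.Work.MP_1e0b64_lc.Load2

/-!
The weights of a plane tree of columns, and the loads on the heavy edges.
-/

namespace Pool.Agent.Work.MP_1e0b64_lc.X

open SimpleGraph Finset

/-- Column of the upper end. -/
def ul (par : ℕ → ℕ) (l p : ℕ) : ℕ := if p % 6 = 2 then par l else l

/-- Position of the upper end. -/
def u2 (L : ℕ) (par : ℕ → ℕ) (μ : ℕ → ℕ → ℕ) (l p d : ℕ) : ℕ :=
  if p % 6 = 2 then (if par l = L then 0 else 6 * μ l (p / 6)) else if p % 6 ≤ 1 then p + 1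
  else if p % 6 = 4 then p - 2 else if p % 6 = 5 then p + 3
  else if d ≤ 1 then p - 2 else if d ≤ 3 then p + d - 1 else p + 4

/-- One more than the capacity of a checking row edge. -/
def cap (S L : ℕ) (nd : ℕ → ℕ) (cu cd th : ℕ → ℕ → ℕ) (l i : ℕ) : ℕ :=
  (if 0 < i then nd l * (L + 2) + 1 + tau L cu cd l (i - 1) else 0) +
  (if i < S then nd l * (L + 2) + 1 + tau L cu cd l i else 0) +
  if 0 < i ∧ i < S then min (th l i) (2 * L + 1) else 0

/-- The weights. -/
def Wt (S L : ℕ) (nd : ℕ → ℕ) (cu cd th : ℕ → ℕ → ℕ) (l p d : ℕ) : ℕ :=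
  if p % 6 = 1 then (if d = 1 then Kv L + 1 - max 1 (cap S L nd cu cd th l (p / 6)) else 0)
  else if p % 6 ≤ 2 then (if d = 1 then Kv L - 2 * (L * (L + 3)) else 0)
  else if p % 6 = 3 then (if d = 1 ∨ d = 4 then 1 else if d = 2 then L + 1 + cd l (p / 6)
    else if d = 3 then L + 1 + cu l (p / 6) else 0)
  else if d = 1 then Kv L - (L + 2) else 0

/-- The directions given by the choices `o`. -/
def dirs (o : ℕ → ℕ → ℕ) (l p : ℕ) : ℕ := if p % 6 = 3 ∧ o l (p / 6) ≠ 0 then 4 else 1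

/-- The descendants of a row node: `Z k c j` says that the node of kind `k` of the row `j` of the
column `c` is a descendant. -/
def sR (o : ℕ → ℕ → ℕ) (Z : ℕ → ℕ → ℕ → Prop) (l p : ℕ) : Prop :=
  if p % 6 ≤ 2 then Z (p % 6) l (p / 6) else if p % 6 = 3 then
    (if o l (p / 6) = 0 then Z 1 l (p / 6) else Z 1 l (p / 6 + 1))
  else if p % 6 = 4 then Z 2 l (p / 6) else Z 2 l (p / 6 + 1)

/-- The descendants of the node of kind `κ` of the row `i` of the column `a`. -/
def ZZ (L : ℕ) (par : ℕ → ℕ) (μ : ℕ → ℕ → ℕ) (a i κ k c j : ℕ) : Prop :=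
  fl L par μ (c, j) (a, i) ∧ (c = a → k ≤ κ)

/-- The cost of the choice. -/
def cost (cu cd o : ℕ → ℕ → ℕ) (c s : ℕ) : ℕ := if o c s = 0 then cu c s else cd c s

/-- The load of the item of the strip `s` of the column itself on its row edge of kind `κ`. -/
def own (L : ℕ) (cu cd o : ℕ → ℕ → ℕ) (κ a s b : ℕ) : ℕ :=
  if κ = 0 then 0 else if κ = 1 then 1 + (if (o a s = 0 ↔ b = 0) then tau L cu cd a s else 0)
  else L + 2 + cost cu cd o a s

variable {S L : ℕ} {nd par : ℕ → ℕ} {μ ch σ cu cd th : ℕ → ℕ → ℕ}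

theorem Kv_eq (L : ℕ) : Kv L = 4 * (L * (L + 2)) + 16 * L + 36 ∧
    L * (L + 3) = L * (L + 2) + L := by
  unfold Kv
  constructor <;> ring

theorem cap_le (hu : ∀ c s, cu c s ≤ 1) (hd : ∀ c s, cd c s ≤ 1) {l : ℕ} (hl : nd l ≤ L) (i : ℕ) :
    2 * cap S L nd cu cd th l i ≤ Kv L := by
  have h1 : nd l * (L + 2) ≤ L * (L + 2) := Nat.mul_le_mul_right _ hl
  have h2 := (Kv_eq L).1
  have := hu l i
  have := hd l i
  have := hu l (i - 1)
  have := hd l (i - 1)
  unfold cap tau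
  split_ifs <;> omega

theorem Wt_cases {l p d : ℕ} (h : 0 < Wt S L nd cu cd th l p d) :
    (p % 6 = 1 ∧ d = 1 ∧
      Wt S L nd cu cd th l p d = Kv L + 1 - max 1 (cap S L nd cu cd th l (p / 6))) ∨
    ((p % 6 = 0 ∨ p % 6 = 2) ∧ d = 1 ∧ Wt S L nd cu cd th l p d = Kv L - 2 * (L * (L + 3))) ∨
    ((p % 6 = 4 ∨ p % 6 = 5) ∧ d = 1 ∧ Wt S L nd cu cd th l p d = Kv L - (L + 2)) ∨
    (p % 6 = 3 ∧ 1 ≤ d ∧ d ≤ 4) := by
  unfold Wt at h ⊢
  split_ifs at h ⊢ <;> omega

/-- The level of a node inside its column. -/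
def sub (p : ℕ) : ℕ := if p % 6 = 2 then 2 else if p % 3 = 0 then 0 else 1

theorem lev_up (hT : PT L S par μ nd ch σ) {l p d : ℕ} (hl : l < L)
    (hw : 0 < Wt S L nd cu cd th l p d) :
    3 * nd (ul par l p) + sub (u2 L par μ l p d) = 3 * nd l + sub p + 1 := by
  have := hT.ht_pa l hl
  have := Wt_cases hw
  by_cases e : p % 6 = 2
  · have : sub (u2 L par μ l p d) = 0 := by
      simp only [u2, if_pos e]
      split_ifs
      · rfl
      · rw [sub, if_neg (by omega), if_pos (by omega)]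
    rw [this]
    simp only [ul, sub, if_pos e]
    omega
  · simp only [ul, u2, sub, if_neg e]
    split_ifs <;> omega

theorem wok (hT : PT L S par μ nd ch σ) (hu : ∀ c s, cu c s ≤ 1) (hd : ∀ c s, cd c s ≤ 1) :
    Wok (6 * S + 3) L (Kv L) (ul par) (u2 L par μ) (Wt S L nd cu cd th)
      fun l p => 3 * L + 3 - (3 * nd l + sub p) where
  hP := by omega
  hK := by have := Kv_ge L; omega
  h0 l p := by simp [Wt]
  le l p d := by
    have := Kv_ge L
    have := hu l (p / 6)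
    have := hd l (p / 6)
    unfold Wt
    split_ifs <;> omega
  inr l hl p hp d hw := by
    have := hT.pa_le l hl
    have := hT.mu_le l (p / 6) (by omega)
    have h1 := lev_up hT hl hw
    have := Wt_cases hw
    refine ⟨?_, ?_, ?_⟩
    · unfold u2
      split_ifs <;> omega
    · unfold u2 ul
      split_ifs <;> omega
    · have := hT.ht_lt hl
      have : sub p ≤ 2 := by
        unfold sub
        split_ifs <;> omega
      simp only [h1]
      omega

theorem val_dirs (hu : ∀ c s, cu c s ≤ 1) (hd : ∀ c s, cd c s ≤ 1) (hn : ∀ l < L, nd l < L)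
    (o : ℕ → ℕ → ℕ) : Val (6 * S + 3) L (Wt S L nd cu cd th) (dirs o) := by
  intro l hl p _
  have := Kv_eq L
  have := cap_le (S := S) (th := th) hu hd (hn l hl).le (p / 6)
  unfold Wt dirs
  split_ifs <;> omega

open Classical in
theorem g_one (s : ℕ → ℕ → Prop) {l p : ℕ} (h : p % 6 ≠ 3) :
    g2 (ul par) (u2 L par μ) (Wt S L nd cu cd th) s l p =
      if (s l p ↔ s (ul par l p) (u2 L par μ l p 1)) then 0 else Wt S L nd cu cd th l p 1 := by
  refine sum_eq_single _ (fun d _ hd => ?_) fun hd => absurd (mem_range.2 (by omega)) hd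
  rw [show Wt S L nd cu cd th l p d = 0 by
    unfold Wt
    split_ifs <;> omega, ite_self]

open Classical in
theorem g_item (s : ℕ → ℕ → Prop) (l t : ℕ) :
    g2 (ul par) (u2 L par μ) (Wt S L nd cu cd th) s l (6 * t + 3) =
      (if (s l (6 * t + 3) ↔ s l (6 * t + 1)) then 0 else 1) +
      (if (s l (6 * t + 3) ↔ s l (6 * t + 4)) then 0 else L + 1 + cd l t) +
      (if (s l (6 * t + 3) ↔ s l (6 * t + 5)) then 0 else L + 1 + cu l t) +
      if (s l (6 * t + 3) ↔ s l (6 * t + 7)) then 0 else 1 := by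
  have e1 : (6 * t + 3) % 6 = 3 := by omega
  have e2 : (6 * t + 3) / 6 = t := by omega
  simp [g2, sum_range_succ, Wt, u2, ul, e1, e2]

theorem dirs_one (o : ℕ → ℕ → ℕ) {l p : ℕ} (h : p % 6 ≠ 3) : dirs o l p = 1 :=
  if_neg fun e => h e.1

theorem sR_val (o : ℕ → ℕ → ℕ) (Z : ℕ → ℕ → ℕ → Prop) (l t : ℕ) :
    (sR o Z l (6 * t) ↔ Z 0 l t) ∧ (sR o Z l (6 * t + 1) ↔ Z 1 l t) ∧
    (sR o Z l (6 * t + 2) ↔ Z 2 l t) ∧
    (sR o Z l (6 * t + 3) ↔ if o l t = 0 then Z 1 l t else Z 1 l (t + 1)) ∧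
    (sR o Z l (6 * t + 4) ↔ Z 2 l t) ∧ (sR o Z l (6 * t + 5) ↔ Z 2 l (t + 1)) := by
  have e : ∀ k < 6, (6 * t + k) % 6 = k ∧ (6 * t + k) / 6 = t := fun k hk => by omega
  have := e 0 (by omega)
  simp only [add_zero] at this
  simp [sR, e, this]

theorem sR_D (hT : PT L S par μ nd ch σ) (o : ℕ → ℕ → ℕ) {a κ : ℕ} (i : ℕ) (ha : a < L)
    (hκ : κ ≤ 2) : D2 (6 * S + 3) L (ul par) (u2 L par μ) (dirs o) a (6 * i + κ)
      (sR o (ZZ L par μ a i κ)) := by
  refine ⟨?_, fun h => fl_root ha ((sR_val o _ L 0).1.1 h).1, fun l hl p _ hne => ?_⟩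
  · have := sR_val o (ZZ L par μ a i κ) a i
    interval_cases κ <;> simp [this, ZZ, hT.fl_self]
  obtain ⟨t, k, hk, rfl⟩ : ∃ t k, k < 6 ∧ p = 6 * t + k := ⟨p / 6, p % 6, by omega, by omega⟩
  have v0 := sR_val o (ZZ L par μ a i κ) l t
  have v1 := sR_val o (ZZ L par μ a i κ) l (t + 1)
  have e : (6 * t + k) % 6 = k ∧ (6 * t + k) / 6 = t := by omega
  simp only [ul, u2, dirs, e.1, e.2]
  interval_cases k
  · simp only [add_zero] at hne ⊢
    simp [v0, ZZ]
    intro h
    by_cases e : l = a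
    · subst e
      rw [hT.fl_self] at h
      omega
    · simp [e]
  · simp [v0, ZZ, add_assoc]
    intro h
    by_cases e : l = a
    · subst e
      rw [hT.fl_self] at h
      omega
    · simp [e]
  · have r : sR o (ZZ L par μ a i κ) (par l) (if par l = L then 0 else 6 * μ l t) ↔
        fl L par μ (par l, μ l t) (a, i) := by
      split_ifs with e
      · rw [e]
        exact iff_of_false (fun h => fl_root ha ((sR_val o _ L 0).1.1 h).1) (fl_root ha)
      · simp [(sR_val o _ _ _).1, ZZ]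
    simp only [if_true, r, v0, ZZ]
    by_cases e : l = a
    · subst e
      simp only [hT.fl_self, hT.fl_pa ha]
      simp
      omega
    · simp [e, fl_step hl e]
  · by_cases O : o l t = 0
    · simp [v0, O]
    · simp [v0, O, ← v1.2.1, mul_add]
  · simp [v0]
  · simp [v0, ← v1.2.2.1, mul_add]

end Pool.Agent.Work.MP_1e0b64_lc.X
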