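import Pool.Agent.Work.MP_1e0b64_lc.X.Load

/-!
A plane tree of columns accepts if and only if its graph has small congestion.
-/

namespace Pool.Agent.Work.MP_1e0b64_lc.X

open SimpleGraph Finset

variable {S L : ℕ} {nd par : ℕ → ℕ} {μ ch σ cu cd th : ℕ → ℕ → ℕ}

theorem sum_items (G : ℕ → ℕ) (S : ℕ) :
    ∑ p ∈ range (6 * S + 3), (if p % 6 = 3 then G (p / 6) else 0) = ∑ t ∈ range S, G t := by
  induction S with
  | zero => simp [sum_range_succ]
  | succ S ih =>
    rw [show 6 * (S + 1) + 3 = 6 * S + 3 + 1 + 1 + 1 + 1 + 1 + 1 by ring]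
    simp only [sum_range_succ _ (6 * S + 3 + 1 + 1 + 1 + 1 + 1),
      sum_range_succ _ (6 * S + 3 + 1 + 1 + 1 + 1), sum_range_succ _ (6 * S + 3 + 1 + 1 + 1),
      sum_range_succ _ (6 * S + 3 + 1 + 1), sum_range_succ _ (6 * S + 3 + 1),
      sum_range_succ _ (6 * S + 3), ih, sum_range_succ _ S]
    rw [if_pos (by omega), if_neg (by omega), if_neg (by omega), if_neg (by omega),
      if_neg (by omega), if_neg (by omega), show (6 * S + 3) / 6 = S by omega]
    simp

open Classical in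
theorem g_Z (hT : PT L S par μ nd ch σ) (o : ℕ → ℕ → ℕ) {a κ : ℕ} (i : ℕ) (ha : a < L)
    (hκ : κ ≤ 2) {l t : ℕ} (hl : l < L) (ht : t < S) :
    g2 (ul par) (u2 L par μ) (Wt S L nd cu cd th) (sR o (ZZ L par μ a i κ)) l (6 * t + 3) =
      (if sfl L S par μ (l, t) (a, i) ∧ l ≠ a then L + 2 + cost cu cd o l t else 0) +
      (if 0 < i then (if sfl L S par μ (l, t) (a, i - 1) ∧ l ≠ a then L + 2 + cost cu cd o l t
        else 0) else 0) +
      ((if t = i then (if l = a then own L cu cd o κ a i 0 else 0) else 0) +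
      if t = i - 1 then (if l = a then (if 0 < i then own L cu cd o κ a (i - 1) 1 else 0) else 0)
        else 0) := by
  have v0 := sR_val o (ZZ L par μ a i κ) l t
  have v1 := (sR_val o (ZZ L par μ a i κ) l (t + 1)).2.1
  rw [show 6 * (t + 1) + 1 = 6 * t + 7 by ring] at v1
  rw [g_item]
  by_cases e : l = a
  · subst e
    simp only [v0, v1, ZZ, hT.fl_self, own, cost, tau]
    by_cases h1 : t = i
    · subst h1
      have : ¬ (t = t - 1 ∧ 0 < t) := by omega
      by_cases O : o l t = 0 <;> interval_cases κ <;> simp [O] <;> (try split_ifs) <;> omega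
    by_cases h2 : t + 1 = i
    · subst h2
      by_cases O : o l t = 0 <;> interval_cases κ <;> simp [O] <;> omega
    · simp [h1, h2]
      omega
  · obtain ⟨x1, x2, -⟩ := hT.xor ha i l hl.le t ht
    simp only [v0, v1, ZZ, cost]
    by_cases O : o l t = 0 <;> by_cases A : fl L par μ (l, t) (a, i) <;>
      by_cases B : fl L par μ (l, t + 1) (a, i) <;>
      by_cases C : sfl L S par μ (l, t) (a, i) <;> by_cases D : 0 < i <;>
      by_cases E : sfl L S par μ (l, t) (a, i - 1) <;> simp [A, B, C, D, E] at x1 x2 <;>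
      simp [O, A, B, C, D, E, e] <;> omega

theorem NB_lin (hT : PT L S par μ nd ch σ) (f : ℕ → ℕ → ℕ) {a s : ℕ} (ha : a < L) (hs : s < S) :
    NB L S par μ (fun c t => L + 2 + f c t) a s = nd a * (L + 2) + NB L S par μ f a s := by
  rw [← hT.NB_one ha hs]
  simp only [NB, sum_mul, ← sum_add_distrib]
  refine sum_congr rfl fun c _ => sum_congr rfl fun t _ => ?_
  split_ifs <;> simp

theorem NB_le (hT : PT L S par μ nd ch σ) {f : ℕ → ℕ → ℕ} (hf : ∀ c t, f c t ≤ 1) {a s : ℕ}
    (ha : a < L) (hs : s < S) : NB L S par μ f a s ≤ nd a := by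
  rw [← hT.NB_one ha hs]
  refine sum_le_sum fun c _ => sum_le_sum fun t _ => ?_
  split_ifs
  exacts [hf c t, le_rfl]

theorem sR_w (hT : PT L S par μ nd ch σ) (o : ℕ → ℕ → ℕ) {a κ i : ℕ} (ha : a < L)
    (hκ : κ ≤ 2) (hi : i ≤ S) :
    w2 (6 * S + 3) L (ul par) (u2 L par μ) (Wt S L nd cu cd th) (sR o (ZZ L par μ a i κ)) =
      g2 (ul par) (u2 L par μ) (Wt S L nd cu cd th) (sR o (ZZ L par μ a i κ)) a (6 * i + κ) +
      (if i < S then nd a * (L + 2) + NB L S par μ (cost cu cd o) a i + own L cu cd o κ a i 0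
        else 0) +
      if 0 < i then nd a * (L + 2) + NB L S par μ (cost cu cd o) a (i - 1) +
        own L cu cd o κ a (i - 1) 1 else 0 := by
  classical
  have hD := sR_D hT o i ha hκ
  have h1 : ∀ l ∈ range L, ∀ p ∈ range (6 * S + 3),
      g2 (ul par) (u2 L par μ) (Wt S L nd cu cd th) (sR o (ZZ L par μ a i κ)) l p =
      (if p = 6 * i + κ then (if l = a then g2 (ul par) (u2 L par μ) (Wt S L nd cu cd th)
        (sR o (ZZ L par μ a i κ)) a (6 * i + κ) else 0) else 0) +
      if p % 6 = 3 then g2 (ul par) (u2 L par μ) (Wt S L nd cu cd th)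
        (sR o (ZZ L par μ a i κ)) l (6 * (p / 6) + 3) else 0 := by
    intro l hl p hp
    by_cases h : p % 6 = 3
    · rw [if_neg (by omega), if_pos h, show 6 * (p / 6) + 3 = p by omega, zero_add]
    rw [if_neg h, add_zero]
    by_cases e : l = a ∧ p = 6 * i + κ
    · rw [if_pos e.2, if_pos e.1, e.1, e.2]
    · have := hD.2.2 l (mem_range.1 hl) p (mem_range.1 hp) e
      rw [dirs_one o h] at this
      rw [g_one _ h, if_pos this]
      split_ifs <;> omega
  rw [w2, sum_congr rfl fun l hl => sum_congr rfl (h1 l hl)]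
  simp only [sum_add_distrib, sum_ite_eq', mem_range, if_pos ha,
    if_pos (show 6 * i + κ < 6 * S + 3 by omega)]
  rw [sum_congr rfl fun l hl => (sum_items (fun t => g2 (ul par) (u2 L par μ) (Wt S L nd cu cd th)
      (sR o (ZZ L par μ a i κ)) l (6 * t + 3)) S).trans (sum_congr rfl fun t ht =>
    g_Z hT o i ha hκ (mem_range.1 hl) (mem_range.1 ht))]
  simp only [sum_add_distrib, sum_ite_eq', mem_range]
  have n1 : i < S → _ := NB_lin hT (cost cu cd o) (s := i) ha
  have n2 : i - 1 < S → _ := NB_lin hT (cost cu cd o) (s := i - 1) ha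
  have n3 : ¬ i < S → NB L S par μ (fun c t => L + 2 + cost cu cd o c t) a i = 0 := fun h =>
    sum_eq_zero fun c hc => sum_eq_zero fun t ht => if_neg fun e =>
      h ((hT.xor ha i c (mem_range.1 hc).le t (mem_range.1 ht)).2.2 e.1)
  unfold NB at n1 n2 n3 ⊢
  by_cases b1 : i < S <;> by_cases b2 : 0 < i
  · simp only [if_pos b1, if_pos b2, n1 b1, n2 (by omega), if_pos (show i - 1 < S by omega),
      sum_ite_eq', mem_range, if_pos ha]
    omega
  · simp only [if_pos b1, if_neg b2, n1 b1, sum_ite_eq', mem_range, if_pos ha, ite_self,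
      sum_const_zero]
    omega
  · simp only [if_neg b1, if_pos b2, n3 b1, n2 (by omega), if_pos (show i - 1 < S by omega),
      sum_ite_eq', mem_range, if_pos ha, sum_const_zero]
    omega
  · simp only [if_neg b1, if_neg b2, n3 b1, ite_self, sum_const_zero]
    omega

theorem cost_le (hu : ∀ c s, cu c s ≤ 1) (hd : ∀ c s, cd c s ≤ 1) (o : ℕ → ℕ → ℕ) (c s : ℕ) :
    cost cu cd o c s ≤ 1 := by
  unfold cost
  split_ifs
  exacts [hu _ _, hd _ _]

theorem rows_iff (hT : PT L S par μ nd ch σ) (hS : 0 < S) (hu : ∀ c s, cu c s ≤ 1)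
    (hd : ∀ c s, cd c s ≤ 1) (o : ℕ → ℕ → ℕ) {c : ℕ} (hc : c < L) :
    (∀ i ≤ S, w2 (6 * S + 3) L (ul par) (u2 L par μ) (Wt S L nd cu cd th)
      (sR o (ZZ L par μ c i 1)) ≤ Kv L) ↔
      Ok S (th c) (NB L S par μ (cost cu cd o) c) (o c) := by
  have key : ∀ i ≤ S, w2 (6 * S + 3) L (ul par) (u2 L par μ) (Wt S L nd cu cd th)
      (sR o (ZZ L par μ c i 1)) ≤ Kv L ↔
      ((0 < i → o c (i - 1) ≠ 0) → (i < S → o c i = 0) → 0 < i ∧ i < S ∧
        NB L S par μ (cost cu cd o) c (i - 1) + NB L S par μ (cost cu cd o) c i < th c i) := by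
    intro i hi
    have h0 := hT.ht_lt hc
    have h1 := cap_le (S := S) (th := th) hu hd h0.le i
    have a1 : i < S → _ := NB_le hT (cost_le hu hd o) (s := i) hc
    have a2 := NB_le hT (cost_le hu hd o) (s := i - 1) hc (by omega)
    have v := sR_val o (ZZ L par μ c i 1) c i
    rw [sR_w hT o hc (by omega) hi, g_one _ (by omega), if_neg]
    · simp only [Wt, show (6 * i + 1) % 6 = 1 by omega, if_true, show (6 * i + 1) / 6 = i by omega]
      unfold cap own tau at *
      simp only [iff_true, iff_false, one_ne_zero, if_true, if_false] at *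
      split_ifs at h1 ⊢ <;> omega
    · simp [ul, u2, show (6 * i + 1) % 6 = 1 by omega, add_assoc, v, ZZ, hT.fl_self]
  refine ⟨fun h => ⟨fun e => ?_, by_contra fun e => ?_, fun i h1 h2 h3 h4 => ?_⟩,
    fun h i hi => (key i hi).2 fun h1 h2 => ?_⟩
  · simpa using ((key 0 hS.le).1 (h 0 hS.le) (by simp) fun _ => e).1
  · simpa using ((key S le_rfl).1 (h S le_rfl) (fun _ => e) (by simp)).2.1
  · exact ((key i h2.le).1 (h i h2.le) (fun _ => h3) fun _ => h4).2.2
  · have a1 : 0 < i := Nat.pos_of_ne_zero fun e => h.1 (e ▸ h2 (e ▸ hS))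
    have a2 : i < S := lt_of_le_of_ne hi fun e => h1 a1 (e ▸ h.2.1)
    exact ⟨a1, a2, h.2.2 i a1 a2 (h1 a1) (h2 a2)⟩

theorem load_complete (hT : PT L S par μ nd ch σ) (hS : 0 < S) (hu : ∀ c s, cu c s ≤ 1)
    (hd : ∀ c s, cd c s ≤ 1) (o : ℕ → ℕ → ℕ)
    (h : ∀ c < L, Ok S (th c) (NB L S par μ (cost cu cd o) c) (o c)) :
    stc (Gr2 (6 * S + 3) L (Kv L) (ul par) (u2 L par μ) (Wt S L nd cu cd th)) ≤ Kv L := by
  refine (wok hT hu hd).complete (val_dirs hu hd (fun _ => hT.ht_lt) o) fun a ha b hb => ?_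
  have hK := Kv_eq L
  by_cases h0 : b % 6 = 1
  · obtain ⟨i, rfl⟩ : ∃ i, b = 6 * i + 1 := ⟨b / 6, by omega⟩
    exact ⟨_, sR_D hT o i ha (by omega), (rows_iff hT hS hu hd o ha).2 (h a ha) i (by omega)⟩
  by_cases h0' : b % 6 ≤ 2
  · obtain ⟨i, κ, hκ, rfl⟩ : ∃ i κ, (κ = 0 ∨ κ = 2) ∧ b = 6 * i + κ :=
      ⟨b / 6, b % 6, by omega, by omega⟩
    refine ⟨_, sR_D hT o i ha (by omega), ?_⟩
    rw [sR_w hT o ha (by omega) (by omega), g_one _ (by omega)]
    have a1 : i < S → _ := NB_le hT (cost_le hu hd o) (s := i) ha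
    have a2 := NB_le hT (cost_le hu hd o) (s := i - 1) ha (by omega)
    have a3 : Wt S L nd cu cd th a (6 * i + κ) 1 = Kv L - 2 * (L * (L + 3)) := by
      simp only [Wt, if_neg h0, if_pos h0', if_true]
    have a4 : ∀ s b, own L cu cd o κ a s b ≤ L + 3 := fun s b => by
      have := cost_le hu hd o a s
      unfold own
      split_ifs <;> omega
    have a5 := a4 i 0
    have a6 := a4 (i - 1) 1
    have a7 := hT.ht_lt ha
    have a8 : (nd a + 1) * (L + 2) ≤ L * (L + 2) := Nat.mul_le_mul_right _ a7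
    rw [Nat.succ_mul] at a8
    rw [a3]
    split_ifs <;> omega
  have hD : D2 (6 * S + 3) L (ul par) (u2 L par μ) (dirs o) a b fun l p => l = a ∧ p = b := by
    refine ⟨⟨rfl, rfl⟩, by omega, fun l _ p _ hne => iff_of_false hne ?_⟩
    unfold u2 dirs
    split_ifs <;> omega
  refine ⟨_, hD, le_trans (sum_le_sum fun l hl => sum_le_sum (g := fun p =>
    (if p = b then (if l = a then (if b % 6 = 3 then Kv L else Kv L - (L + 2)) else 0) else 0) +
    if p = 6 * (b / 6) + 3 then (if l = a then (if b % 6 = 3 then 0 else L + 2) else 0)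
      else 0) fun p hp => ?_) ?_⟩
  · rw [mem_range] at hl hp
    by_cases h1 : p % 6 ≠ 3
    · rw [g_one _ h1]
      by_cases e : l = a ∧ p = b
      · obtain ⟨rfl, rfl⟩ := e
        refine (ite_zero_le' _).trans (le_add_right ?_)
        simp [Wt, h0, h0', h1]
      · have := hD.2.2 l hl p hp e
        rw [dirs_one o h1] at this
        rw [if_pos this]
        exact Nat.zero_le _
    · obtain ⟨t, rfl⟩ : ∃ t, p = 6 * t + 3 := ⟨p / 6, by omega⟩
      have := hu l t
      have := hd l t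
      rw [g_item]
      clear hD h hp ha hb
      by_cases A : l = a
      · simp only [A, true_and] at *
        split_ifs <;> omega
      · simp [A]
  · simp only [sum_add_distrib]
    refine (add_le_add (sum_pt _ _ _ _ _) (sum_pt _ _ _ _ _)).trans ?_
    split_ifs <;> omega

theorem no_leaf {δ : ℕ → ℕ → ℕ} (h1 : Val (6 * S + 3) L (Wt S L nd cu cd th) δ)
    (h2 : ∀ a < L, ∀ b < 6 * S + 3, ∀ s, D2 (6 * S + 3) L (ul par) (u2 L par μ) δ a b s →
      w2 (6 * S + 3) L (ul par) (u2 L par μ) (Wt S L nd cu cd th) s ≤ Kv L) {l t e : ℕ}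
    (hl : l < L) (ht : t < S) (he : e = 4 ∨ e = 5) : δ l (6 * t + 3) ≠ e - 2 := by
  intro hδ
  have hK := Kv_ge L
  have hw := h2 l hl (6 * t + e) (by omega)
    (fun l' p' => l' = l ∧ (p' = 6 * t + e ∨ p' = 6 * t + 3))
    ⟨⟨rfl, Or.inl rfl⟩, by omega, fun l' hl' p' hp' hne => by
      by_cases e' : l' = l ∧ p' = 6 * t + 3
      · obtain ⟨rfl, rfl⟩ := e'
        unfold u2 ul
        split_ifs <;> omega
      · refine iff_of_false (by omega) ?_
        unfold u2 ul
        rcases Wt_cases (h1 l' hl' p' hp').2 with h | h | h | h <;> split_ifs <;> omega⟩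
  have := (add_le_sum (fun _ _ => Nat.zero_le _)
    (mem_range.2 (show 6 * t + e < 6 * S + 3 by omega))
    (mem_range.2 (show 6 * t + 3 < 6 * S + 3 by omega)) (by omega)).trans
    ((single_le_sum (fun _ _ => Nat.zero_le _) (mem_range.2 hl)).trans hw)
  rw [g_one _ (by omega), g_item, if_neg (by unfold u2; split_ifs <;> omega),
    show Wt S L nd cu cd th l (6 * t + e) 1 = Kv L - (L + 2) by
      rcases he with rfl | rfl <;> simp [Wt, Nat.add_mod]] at this
  rcases he with rfl | rfl <;> simp at this <;> omega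

theorem load_sound (hT : PT L S par μ nd ch σ) (hS : 0 < S) (hu : ∀ c s, cu c s ≤ 1)
    (hd : ∀ c s, cd c s ≤ 1)
    (h : stc (Gr2 (6 * S + 3) L (Kv L) (ul par) (u2 L par μ) (Wt S L nd cu cd th)) ≤ Kv L) :
    ∃ o : ℕ → ℕ → ℕ, ∀ c < L, Ok S (th c) (NB L S par μ (cost cu cd o) c) (o c) := by
  have hK := Kv_eq L
  have hn' : ∀ l < L, nd l < L := fun _ => hT.ht_lt
  obtain ⟨δ, h1, h2⟩ := (wok hT hu hd).sound ((wok hT hu hd).connected (val_dirs hu hd hn' fun _ _ =>
    0)) (fun l p => 3 * l + if p % 6 ≤ 2 then p % 6 else 1) (fun l hl p _ d hw => by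
      have := cap_le (S := S) (th := th) hu hd (hn' l hl).le (p / 6)
      unfold u2 ul
      rcases Wt_cases hw with h | h | h | h <;> split_ifs <;> omega) (fun l hl p hp => by
      by_cases e : p % 6 = 3
      · refine Or.inr fun l' _ p' _ d hw => ?_
        unfold u2
        rcases Wt_cases hw with h | h | h | h <;> split_ifs <;> omega
      · have := val_dirs (th := th) hu hd hn' (fun _ _ => 0) l hl p hp
        refine Or.inl ⟨_, this.1, this.2, ?_⟩
        unfold u2 ul
        split_ifs <;> omega) h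
  refine ⟨fun l s => δ l (6 * s + 3) - 1, fun c hc => (rows_iff hT hS hu hd _ hc).1
    fun i hi => h2 _ hc (6 * i + 1) (by omega) _ ?_⟩
  obtain ⟨d1, d2, d3⟩ := sR_D hT (fun l s => δ l (6 * s + 3) - 1) i hc (κ := 1) (by omega)
  refine ⟨d1, d2, fun l hl p hp hne => ?_⟩
  rw [show δ l p = dirs (fun l s => δ l (6 * s + 3) - 1) l p from ?_]
  · exact d3 l hl p hp hne
  clear d1 d2 d3 hne
  simp only [dirs]
  rcases Wt_cases (h1 l hl p hp).2 with h | h | h | h
  iterate 3 split_ifs <;> omega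
  have a := no_leaf h1 h2 (l := l) (t := p / 6) hl (by omega) (Or.inl rfl)
  have b := no_leaf h1 h2 (l := l) (t := p / 6) hl (by omega) (Or.inr rfl)
  simp only [show 6 * (p / 6) + 3 = p by omega] at a b ⊢
  split_ifs <;> omega

theorem ok_congr {th A B o : ℕ → ℕ} (h : ∀ s < S, A s = B s) : Ok S th A o → Ok S th B o :=
  fun h1 => ⟨h1.1, h1.2.1, fun i a b c d => by
    rw [← h i b, ← h (i - 1) (by omega)]
    exact h1.2.2 i a b c d⟩

theorem load_iff (hT : PT L S par μ nd ch σ) (hS : 0 < S) (hu : ∀ c s, cu c s ≤ 1)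
    (hd : ∀ c s, cd c s ≤ 1) :
    stc (Gr2 (6 * S + 3) L (Kv L) (ul par) (u2 L par μ) (Wt S L nd cu cd th)) ≤ Kv L ↔
      ∃ o A : ℕ → ℕ → ℕ, ∀ c < L, Ok S (th c) (A c) (o c) ∧ ∀ s < S, A c s =
        if nd c = 0 then 0 else A (ch c s) (σ c s) + cost cu cd o (ch c s) (σ c s) :=
  ⟨fun h => by
    obtain ⟨o, h⟩ := load_sound hT hS hu hd h
    exact ⟨o, _, fun c hc => ⟨h c hc, fun s hs => hT.NB_rec _ hc hs⟩⟩,
  fun ⟨o, A, h⟩ => load_complete hT hS hu hd o fun c hc =>
    ok_congr (hT.rec_eq _ A (fun c hc => (h c hc).2) c hc) (h c hc).1⟩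

end Pool.Agent.Work.MP_1e0b64_lc.X
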