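import Pool.Agent.Work.MP_1e0b64_lc.X.Load

/-!
Planarity and treewidth of the graph of a plane tree of columns.
-/

namespace Pool.Agent.Work.MP_1e0b64_lc.X

open SimpleGraph Finset

theorem gr_planar {U : ℕ → ℕ → ℕ} {Q K : ℕ} {W : ℕ → ℕ → ℕ} (hK : 0 < K) (lev : ℕ → ℕ)
    (h1 : ∀ q < Q, ∀ d, 0 < W q d → lev (U q d) = lev q + 1)
    (h2 : ∀ q < Q, ∀ d, ∀ q' < Q, ∀ d', 0 < W q d → 0 < W q' d' → lev q = lev q' →
      (q < q' ∨ q = q' ∧ d ≤ d') → U q d ≤ U q' d') : IsPlanar (Gr U Q K W) := by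
  have hB : 0 < 6 * K := by omega
  have cs : ∀ u v : Fin (Q * (6 * K) + 1), rel U K W u v → u.val % (6 * K) ≠ 0 ∧
      v.val % (6 * K) = 0 ∧ (v.val / (6 * K) = u / (6 * K) ∨
        0 < W (u / (6 * K)) (u % (6 * K) / K) ∧
        v.val / (6 * K) = U (u / (6 * K)) (u % (6 * K) / K) ∧
        lev (v.val / (6 * K)) = lev (u / (6 * K)) + 1) := by
    rintro u v ⟨a1, a2 | ⟨a2, a3⟩⟩
    · exact ⟨a1, by simp [a2], Or.inl (by rw [a2, Nat.mul_div_cancel _ hB])⟩
    · have a4 := lt_of_le_of_lt (Nat.zero_le _) a2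
      refine ⟨a1, by simp [a3], Or.inr ⟨a4, ?_⟩⟩
      rw [a3, Nat.mul_div_cancel _ hB]
      exact ⟨rfl, h1 _ (mid_lt hK u a1) _ a4⟩
  refine planar_of_level _ (fun z => 2 * lev (z.val / (6 * K)) + if z.val % (6 * K) = 0 then 0
    else 1) Fin.val Fin.val_injective ?_ ?_
  · rintro u v (h | h) <;> obtain ⟨a1, a2, a3 | ⟨-, -, a3⟩⟩ := cs _ _ h <;>
      rw [if_neg a1, if_pos a2, a3] <;> omega
  · intro a b c d hab hcd l1 l2 l3 hlt
    have hac := Nat.div_le_div_right (c := 6 * K) hlt.le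
    rcases hab with h | h <;> obtain ⟨a1, a2, a3⟩ := cs _ _ h <;> rcases hcd with h' | h' <;>
      obtain ⟨c1, c2, c3⟩ := cs _ _ h' <;>
      simp only [if_neg a1, if_pos a2, if_neg c1, if_pos c2] at l1 l2 l3
    · rcases a3 with a3 | ⟨a3, a4, -⟩
      · rw [a3] at l1
        omega
      rcases c3 with c3 | ⟨c3, c4, -⟩
      · rw [c3] at l3
        omega
      rw [node_eq (not_not.2 a2), node_eq (not_not.2 c2), a4, c4]
      refine Nat.mul_le_mul_right _ (h2 _ (mid_lt hK a a1) _ _ (mid_lt hK c c1) _ a3 c3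
        (by omega) (hac.lt_or_eq.imp id fun h3 => ⟨h3, ?_⟩))
      have e1 := Nat.div_add_mod a (6 * K)
      have e2 := Nat.div_add_mod c (6 * K)
      rw [h3] at e1
      exact Nat.div_le_div_right (show a % (6 * K) ≤ c % (6 * K) by omega)
    · omega
    · omega
    · rcases a3 with a3 | ⟨-, -, a3⟩
      · rcases c3 with c3 | ⟨-, -, c3⟩
        · have h3 : a.val / (6 * K) ≠ c / (6 * K) := fun e => hlt.ne
            (by rw [node_eq (not_not.2 a2), e, ← node_eq (not_not.2 c2)])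
          exact (Nat.lt_of_div_lt_div (c := 6 * K) (by omega)).le
        · omega
      · omega

variable {S L : ℕ} {nd par : ℕ → ℕ} {μ ch σ cu cd th : ℕ → ℕ → ℕ}

theorem PT.mono (hT : PT L S par μ nd ch σ) (u : ℕ) : Monotone (μ u) :=
  monotone_nat_of_le_succ fun j => (hT.step u j).1

theorem sub_cases (p : ℕ) : (p % 6 = 2 ∧ sub p = 2) ∨ ((p % 6 = 0 ∨ p % 6 = 3) ∧ sub p = 0) ∨
    ((p % 6 = 1 ∨ p % 6 = 4 ∨ p % 6 = 5) ∧ sub p = 1) := by
  unfold sub
  split_ifs <;> omega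

theorem u2_mono {l p p' d d' : ℕ} (h1 : 1 ≤ d ∧ d ≤ 4) (h2 : 1 ≤ d' ∧ d' ≤ 4)
    (h : p < p' ∨ p = p' ∧ d ≤ d') (hm : μ l (p / 6) ≤ μ l (p' / 6)) (e : sub p = sub p') :
    u2 L par μ l p d ≤ u2 L par μ l p' d' := by
  unfold u2
  rcases sub_cases p with a | a | a <;> rcases sub_cases p' with b | b | b <;>
    first | omega | (split_ifs <;> omega)

theorem planar (hT : PT L S par μ nd ch σ) (hu : ∀ c s, cu c s ≤ 1) (hd : ∀ c s, cd c s ≤ 1) :
    IsPlanar (Gr2 (6 * S + 3) L (Kv L) (ul par) (u2 L par μ) (Wt S L nd cu cd th)) := by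
  have hw := wok (th := th) hT hu hd
  refine gr_planar (by have := Kv_ge L; omega)
    (fun q => 3 * nd (q / (6 * S + 3)) + sub (q % (6 * S + 3))) (fun q hq d h => ?_) ?_
  · simp only [(hw.up hq h).1, (hw.up hq h).2]
    exact lev_up hT (lev_lt hq) h
  intro q hq d q' hq' d' h h' e hlt
  rw [← Nat.div_add_mod' (Uq _ _ _ _ q d) (6 * S + 3), ← Nat.div_add_mod' (Uq _ _ _ _ q' d')
    (6 * S + 3), (hw.up hq h).1, (hw.up hq h).2, (hw.up hq' h').1, (hw.up hq' h').2]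
  obtain ⟨l, hl, p, hp, rfl⟩ := exists_idx hq
  obtain ⟨l', hl', p', hp', rfl⟩ := exists_idx hq'
  simp only [div_eq _ hp, mod_eq _ hp, div_eq _ hp', mod_eq _ hp'] at h h' e ⊢
  have i1 := (hw.inr l hl p hp d h).1
  have w1 := Wt_cases h
  have w2 := Wt_cases h'
  have s1 := sub_cases p
  have s2 := sub_cases p'
  have e1 : nd l = nd l' ∧ sub p = sub p' := by omega
  replace w1 : 1 ≤ d ∧ d ≤ 4 := by omega
  replace w2 : 1 ≤ d' ∧ d' ≤ 4 := by omega
  have hle : l ≤ l' := by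
    by_contra hc
    have := idx_lt (not_le.1 hc) hp'
    omega
  have key : ∀ a b x y, a < b → x < 6 * S + 3 → a * (6 * S + 3) + x ≤ b * (6 * S + 3) + y :=
    fun a b x y h1 h2 => (idx_lt h1 h2).le.trans (Nat.le_add_right _ _)
  clear h h' e hw
  rcases hle.lt_or_eq with hll | rfl
  · by_cases b : p % 6 = 2
    · have b' : p' % 6 = 2 := by omega
      simp only [ul, u2, if_pos b, if_pos b'] at i1 ⊢
      rcases hT.plan l l' hll hl' e1.1 with c | ⟨c, c'⟩
      · exact key _ _ _ _ c i1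
      · have := hT.mono l (show p / 6 ≤ S by omega)
        have := hT.mono l' (Nat.zero_le (p' / 6))
        rw [← c]
        split_ifs <;> omega
    · have b' : ¬ p' % 6 = 2 := by omega
      simp only [ul, if_neg b, if_neg b']
      exact key _ _ _ _ hll i1
  · have : ul par l p = ul par l p' := by
      unfold ul
      split_ifs <;> omega
    rw [this]
    exact Nat.add_le_add_left (u2_mono w1 w2 (by omega)
      (hT.mono l (show p / 6 ≤ p' / 6 by omega)) e1.2) _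

theorem treewidth (hT : PT L S par μ nd ch σ) (hu : ∀ c s, cu c s ≤ 1) (hd : ∀ c s, cd c s ≤ 1) :
    TreewidthLE (Gr2 (6 * S + 3) L (Kv L) (ul par) (u2 L par μ) (Wt S L nd cu cd th))
      (2 * (6 * S + 3)) :=
  (wok hT hu hd).treewidth par (fun c => L + 1 - nd c) (fun c hc => ⟨hT.pa_le c hc, by
    have := hT.ht_pa c hc
    have := hT.ht_lt hc
    omega⟩) fun l p => by
      unfold ul
      split_ifs <;> simp

end Pool.Agent.Work.MP_1e0b64_lc.X
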