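import Pool.Agent.Work.MP_1e0b64_lc.X.Csp
import Pool.Agent.Work.MP_1e0b64_lc.X.Plan
import Pool.Agent.Work.MP_1e0b64_lc.Sim

/-!
The reduction from constraint satisfaction problems on plane trees, and its computability.
-/

namespace Pool.Agent.Work.MP_1e0b64_lc.X

open Pool.Agent.Lib.Cx

variable {α : Type} [Obj α]

theorem ls_Gr {Q K : α → ℕ} {U W : α → ℕ → ℕ → ℕ} (hQ : LS Q) (hK : LS K)
    (hU : LS fun p : α × ℕ × ℕ => U p.1 p.2.1 p.2.2)
    (hW : LS fun p : α × ℕ × ℕ => W p.1 p.2.1 p.2.2) :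
    LS fun a => encode (Gr (U a) (Q a) (K a) (W a)) (K a) := by
  classical
  exact ls_encode (fun a => rel (U a) (K a) (W a)) _ (fun _ _ _ => Iff.rfl) (by fun_prop) hK
    (.of_decide (LS.decide_and (by fun_prop) (LS.decide_or (by fun_prop)
      (LS.decide_and (by fun_prop) (by fun_prop)))))

theorem ls_Gr2 {S L : α → ℕ} {par nd : α → ℕ → ℕ} {μ : α → ℕ → ℕ → ℕ} {col : α → ℕ → Col}
    (hS : LS S) (hL : LS L) (hp : LS fun p : α × ℕ => par p.1 p.2)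
    (hn : LS fun p : α × ℕ => nd p.1 p.2) (hμ : LS fun p : α × ℕ × ℕ => μ p.1 p.2.1 p.2.2)
    (hc : LS fun p : α × ℕ => col p.1 p.2) :
    LS fun a => encode (Gr2 (6 * S a + 3) (L a) (Kv (L a)) (ul (par a)) (u2 (L a) (par a) (μ a))
      (Wt (S a) (L a) (nd a) (fun c => cU (col a c)) (fun c => cD (col a c))
        fun c => tH (col a c))) (Kv (L a)) := by
  refine ls_Gr (by fun_prop) (by fun_prop) ?_ ?_
  · unfold Uq ul u2
    fun_prop
  · unfold Wt cap tau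
    fun_prop

theorem csp_red {n R k : α → ℕ} {pa ht : α → ℕ → ℕ} {μ ch σ : α → ℕ → ℕ → ℕ}
    {bad : α → ℕ → ℕ → ℕ → ℕ → ℕ → Bool} (hn : LS n) (hR : LS R) (hk : LS k)
    (hp : LS fun p : α × ℕ => pa p.1 p.2) (hh : LS fun p : α × ℕ => ht p.1 p.2)
    (hμ : LS fun p : α × ℕ × ℕ => μ p.1 p.2.1 p.2.2)
    (hbad : LS fun p : α × ℕ × ℕ × ℕ × ℕ × ℕ =>
      bad p.1 p.2.1 p.2.2.1 p.2.2.2.1 p.2.2.2.2.1 p.2.2.2.2.2)
    (hT : ∀ a, PT (R a) (2 * (6 * k a + 6)) (pa a) (μ a) (ht a) (ch a) (σ a))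
    (hs : ∀ a, Slots (k a) (ch a) (σ a)) (h0 : ∀ a, 0 < n a)
    (hb : ∀ a u g b g' c, bad a u g b g' c = true → used (k a) g ∧ used (k a) g') :
    ∃ F : α → List Bool, LS F ∧ ∀ a, ∃ (N : ℕ) (H : SimpleGraph (Fin N)) (K : ℕ),
      F a = encode H K ∧ H.Connected ∧ H.IsBipartite ∧ IsPlanar H ∧
      TreewidthLE H (144 * k a + 150) ∧
      (stc H ≤ K ↔ ∃ y, Sol (n a) (R a) (k a) (ht a) (ch a) (σ a) (bad a) y) := by
  obtain ⟨m, hm, e⟩ : ∃ m : α → ℕ, LS m ∧ ∀ a, m a = (2 * k a + 1) * n a + (4 * k a + 2) *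
      ((4 * k a + 2) * ((n a * R a + 1) * (n a * R a + 1))) := ⟨_, by fun_prop, fun _ => rfl⟩
  have hseg : LS fun p : α × ℕ => seg (n p.1) (R p.1) (k p.1) (ht p.1) (bad p.1) p.2 := by
    unfold seg updL chk nu
    refine LS.append (by fun_prop) (LS.flatMap (by fun_prop) (LS.flatMap (by fun_prop)
      (LS.flatMap (by fun_prop) (LS.map (by fun_prop) (LS.pair (by fun_prop) (LS.pair (by fun_prop)
        (LS.pair (LS.ite (LS.decide_eq_true ?_) (by fun_prop) (by fun_prop)) (by fun_prop))))))))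
    exact LS.comp _ (fun p : ((((α × ℕ) × ℕ) × ℕ) × ℕ) × ℕ => (p.1.1.1.1.1, p.1.1.1.1.2, p.1.1.1.2,
      p.1.2 % n p.1.1.1.1.1, p.1.1.2, p.2 % n p.1.1.1.1.1)) hbad (by fun_prop)
  refine ⟨_, ls_Gr2 (S := fun a => 2 * (6 * k a + 6)) (L := fun a => R a * m a)
    (par := fun a => bpa (m a) (pa a)) (nd := fun a => bht (m a) (ht a))
    (μ := fun a => bmu (m a) (μ a))
    (col := fun a => colf (m a) (seg (n a) (R a) (k a) (ht a) (bad a))) (by fun_prop) (by fun_prop)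
    (by unfold bpa; fun_prop) (by unfold bht; fun_prop) (by unfold bmu; fun_prop)
    (LS.getD (LS.comp _ (fun p : α × ℕ => (p.1, p.2 / m p.1)) hseg (by fun_prop)) (by fun_prop)
      (by fun_prop)),
    fun a => ⟨_, _, _, rfl, ?_⟩⟩
  have m0 : 0 < m a := by
    rw [e]
    positivity
  have hB := (hT a).blow m0
  have hu : ∀ (l : ℕ → Col) c s, cU (l c) s ≤ 1 := fun l c s => by unfold cU; split_ifs <;> simp
  have hd : ∀ (l : ℕ → Col) c s, cD (l c) s ≤ 1 := fun l c s => by unfold cD; split_ifs <;> simp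
  refine ⟨(wok hB (hu _) (hd _)).connected (val_dirs (hu _) (hd _) (fun _ h => hB.ht_lt h)
    fun _ _ => 0), gr_bip _ _ _ _, planar hB (hu _) (hd _), ?_, ?_⟩
  · rw [show 144 * k a + 150 = 2 * (6 * (2 * (6 * k a + 6)) + 3) by omega]
    exact treewidth hB (hu _) (hd _)
  · refine (load_iff hB (by omega) (hu _) (hd _)).trans ((seg_iff (hT a) m0 _ fun u =>
      (seg_len u).trans (e a).symm).trans ?_)
    exact ⟨fun ⟨E, h⟩ => ⟨_, csp_sound (hT a) (hs a) (h0 a) (hb a) h⟩,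
      fun ⟨y, h⟩ => csp_complete (hT a) (hs a) (hb a) h⟩

/-- The block of a slot. -/
def blk (k g : ℕ) : ℕ := (if g < 2 * k + 2 then g else g - (2 * k + 2)) / 2

open Classical in
/-- Forbidden pairs given by constraints inside a node and between a node and its children. -/
noncomputable def bd (k : ℕ) (ht : ℕ → ℕ) (p0 : ℕ → ℕ → ℕ → Prop)
    (p1 : ℕ → ℕ → ℕ → Bool → ℕ → Prop) (u g a g' b : ℕ) : Bool :=
  decide (¬ (used k g ∧ used k g' → g % 2 = ht u % 2 →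
    (g' % 2 = g % 2 → (blk k g = blk k g' → a = b) ∧ p0 u a b) ∧
      (g' % 2 ≠ g % 2 → ht u ≠ 0 → blk k g = blk k g' →
        p1 u (blk k g) a (decide (2 * k + 2 ≤ g')) b)))

theorem sol_iff {n R k : ℕ} {pa ht : ℕ → ℕ} {μ ch σ : ℕ → ℕ → ℕ} {cd : ℕ → Bool → ℕ}
    {p0 : ℕ → ℕ → ℕ → Prop} {p1 : ℕ → ℕ → ℕ → Bool → ℕ → Prop}
    (hT : PT R (2 * (6 * k + 6)) pa μ ht ch σ) (hn : 0 < n)
    (hc : ∀ u g, used k g → ch u (3 * g) = cd u (decide (2 * k + 2 ≤ g)) ∧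
      blk k (σ u (3 * g) / 3) = blk k g ∧ σ u (3 * g) / 3 % 2 = g % 2 ∧
      used k (σ u (3 * g) / 3)) :
    (∃ y, Sol n R k ht ch σ (bd k ht p0 p1) y) ↔ ∃ Y : ℕ → ℕ → ℕ, ∀ u < R, ∀ j < k, Y u j < n ∧
      (∀ j' < k, p0 u (Y u j) (Y u j')) ∧
      (ht u ≠ 0 → ∀ b, p1 u j (Y u j) b (Y (cd u b) j)) := by
  have lt : ∀ g, used k g → g < 4 * k + 2 ∧ blk k g < k := fun g hg => by
    unfold used blk at *
    split_ifs <;> omega
  have hch : ∀ u < R, ht u ≠ 0 → ∀ g, used k g →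
      ch u (3 * g) < R ∧ ht u = ht (ch u (3 * g)) + 1 := fun u hu h0 g hg => by
    have := (lt g hg).1
    exact ⟨(hT.pred_lt u hu _ (by omega) h0).1, hT.ht_ch hu (by omega) h0⟩
  simp only [Sol, bd, decide_eq_false_iff_not, not_not]
  constructor
  · rintro ⟨y, h⟩
    have us : ∀ u, ∀ j < k, used k (2 * j + ht u % 2) ∧ blk k (2 * j + ht u % 2) = j ∧
        (2 * j + ht u % 2) % 2 = ht u % 2 := fun u j hj => by
      unfold used blk
      split_ifs <;> omega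
    have h1 : ∀ u < R, ∀ g, used k g → g % 2 = ht u % 2 →
        y u g = y u (2 * blk k g + ht u % 2) := fun u hu g hg e => by
      obtain ⟨a1, a2, a3⟩ := us u _ (lt g hg).2
      exact (((h u hu).2 g (lt g hg).1 _ (lt _ a1).1 ⟨hg, a1⟩ e).1 (by omega)).1 a2.symm
    refine ⟨fun u j => y u (2 * j + ht u % 2), fun u hu j hj => ?_⟩
    obtain ⟨a1, a2, a3⟩ := us u j hj
    refine ⟨((h u hu).1 _ a1).1, fun j' hj' => ?_, fun h0 b => ?_⟩
    · obtain ⟨b1, b2, b3⟩ := us u j' hj'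
      exact (((h u hu).2 _ (lt _ a1).1 _ (lt _ b1).1 ⟨a1, b1⟩ a3).1 (by omega)).2
    obtain ⟨g, g1, g2, g3, g4⟩ : ∃ g, used k g ∧ blk k g = j ∧ g % 2 ≠ ht u % 2 ∧
        decide (2 * k + 2 ≤ g) = b := by
      refine ⟨(if b then 2 * k + 2 else 0) + 2 * j + (1 - ht u % 2), ?_⟩
      unfold used blk
      cases b <;> simp only [if_true, Bool.false_eq_true, if_false, decide_eq_true_eq,
        decide_eq_false_iff_not] <;> split_ifs <;> omega
    have := ((h u hu).2 _ (lt _ a1).1 _ (lt _ g1).1 ⟨a1, g1⟩ a3).2 (by omega) h0 (by omega)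
    obtain ⟨c1, c2, c3, c4⟩ := hc u g g1
    obtain ⟨d1, d2⟩ := hch u hu h0 g g1
    rwa [a2, g4, ((h u hu).1 g g1).2 g3, if_neg h0, h1 _ d1 _ c4 (by omega), c2, g2, c1, g4] at this
  · rintro ⟨Y, h⟩
    refine ⟨fun u g => if g % 2 = ht u % 2 then Y u (blk k g) else if ht u = 0 then 0 else
      Y (ch u (3 * g)) (blk k g), fun u hu => ⟨fun g hg => ⟨?_, fun e => ?_⟩,
        fun g _ g' _ ⟨hg, hg'⟩ e => ⟨fun e' => ?_, fun e' h0 e2 => ?_⟩⟩⟩
    · dsimp only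
      split_ifs with _ h0
      exacts [(h u hu _ (lt g hg).2).1, hn, (h _ (hch u hu h0 g hg).1 _ (lt g hg).2).1]
    · obtain ⟨c1, c2, c3, c4⟩ := hc u g hg
      by_cases h0 : ht u = 0
      · simp only [if_neg e, if_pos h0]
      · have := (hch u hu h0 g hg).2
        simp only [if_neg e, if_neg h0, c2,
          if_pos (show σ u (3 * g) / 3 % 2 = ht (ch u (3 * g)) % 2 by omega)]
    · simp only [if_pos e, if_pos (e'.trans e)]
      exact ⟨fun e2 => by rw [e2], (h u hu _ (lt g hg).2).2.1 _ (lt g' hg').2⟩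
    · simp only [if_pos e, if_neg (e ▸ e'), if_neg h0, (hc u g' hg').1, ← e2]
      exact (h u hu _ (lt g hg).2).2.2 h0 _

end Pool.Agent.Work.MP_1e0b64_lc.X
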