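import Pool.Agent.Work.MP_1e0b64_lc.X.Load2

/-!
Trees of lists of columns, and the phases of the column machine.
-/

namespace Pool.Agent.Work.MP_1e0b64_lc.X

open Finset

variable {R S m : ℕ} {pa ht : ℕ → ℕ} {μ ch σ : ℕ → ℕ → ℕ}

theorem reach_iff (l : List Col) (A B : ℕ → ℕ) : Reach S l A B ↔ ∃ o : ℕ → ℕ → ℕ,
    (∀ c < l.length, Ok S (tH (l.getD c c0)) (fun s => A s +
      acc (fun c => cU (l.getD c c0)) (fun c => cD (l.getD c c0)) o c s) (o c)) ∧
    B = fun s => A s + acc (fun c => cU (l.getD c c0)) (fun c => cD (l.getD c c0)) o l.length s := by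
  induction l generalizing A with
  | nil => simp [Reach, acc]
  | cons c l ih =>
    simp only [Reach, ih, List.length_cons, Nat.forall_lt_succ_left, acc, sum_range_succ',
      List.getD_cons_succ, List.getD_cons_zero, range_zero, sum_empty, add_zero]
    refine ⟨fun ⟨o, h, o', h', e⟩ => ⟨fun c => c.casesOn o o', ⟨h, fun c hc => ?_⟩, ?_⟩,
      fun ⟨o, ⟨h, h'⟩, e⟩ => ⟨o 0, h, fun c => o (c + 1), fun c hc => ?_, ?_⟩⟩
    · simpa only [add_assoc, add_comm, add_left_comm, Nat.rec_zero] using h' c hc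
    · simpa only [add_assoc, add_comm, add_left_comm, Nat.rec_zero] using e
    · simpa only [add_assoc, add_comm, add_left_comm, Nat.rec_zero] using h' c hc
    · simpa only [add_assoc, add_comm, add_left_comm, Nat.rec_zero] using e

/-- The state at the beginning of the list of the node `u`. -/
def In (S : ℕ) (ht : ℕ → ℕ) (ch σ E : ℕ → ℕ → ℕ) (u s : ℕ) : ℕ :=
  if s < S ∧ ht u ≠ 0 then E (ch u s) (σ u s) else 0

/-- The column with the number `c`. -/
def colf (m : ℕ) (seg : ℕ → List Col) (c : ℕ) : Col := (seg (c / m)).getD (c % m) c0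

theorem seg_iff (hT : PT R S pa μ ht ch σ) (hm : 0 < m) (seg : ℕ → List Col)
    (hl : ∀ u, (seg u).length = m) :
    (∃ o A : ℕ → ℕ → ℕ, ∀ c < R * m, Ok S (tH (colf m seg c)) (A c) (o c) ∧ ∀ s < S, A c s =
      if bht m ht c = 0 then 0 else A (bch m ch c s) (bsi m σ c s) +
        cost (fun c => cU (colf m seg c)) (fun c => cD (colf m seg c)) o (bch m ch c s)
          (bsi m σ c s)) ↔
    ∃ E : ℕ → ℕ → ℕ, ∀ u < R, Reach S (seg u) (In S ht ch σ E u) (E u) := by
  obtain ⟨m, rfl⟩ : ∃ k, m = k + 1 := ⟨m - 1, by omega⟩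
  have cf : ∀ u, ∀ i < m + 1, colf (m + 1) seg (u * (m + 1) + i) = (seg u).getD i c0 :=
    fun u i hi => by rw [colf, div_eq u hi, mod_eq u hi]
  have e3 : ∀ v k, ht v * (m + 1) + k = 0 ↔ ht v = 0 ∧ k = 0 := fun v k => by simp
  constructor
  · rintro ⟨o, A, h⟩
    let F : ℕ → ℕ → ℕ := fun u s => A (u * (m + 1) + m) s + cost
      (fun c => cU (colf (m + 1) seg c)) (fun c => cD (colf (m + 1) seg c)) o (u * (m + 1) + m) s
    have h2 : ∀ u < R, ∀ i < m + 1, ∀ s < S, A (u * (m + 1) + i) s = In S ht ch σ F u s + acc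
        (fun c => cU ((seg u).getD c c0)) (fun c => cD ((seg u).getD c c0))
        (fun i => o (u * (m + 1) + i)) i s := by
      intro u hu i hi s hs
      induction i with
      | zero =>
        rw [(h _ (idx_lt hu hi)).2 s hs]
        simp only [bht, bch, bsi, div_eq u hi, mod_eq u hi, e3, In, acc, F]
        by_cases b : ht u = 0 <;> simp [b, hs]
      | succ i ih =>
        rw [(h _ (idx_lt hu hi)).2 s hs]
        simp only [bht, bch, bsi, div_eq u hi, mod_eq u hi, e3, Nat.succ_ne_zero, and_false,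
          if_false]
        rw [show u * (m + 1) + (i + 1) - 1 = u * (m + 1) + i by omega, ih (by omega)]
        simp only [cost, cf u i (by omega), acc, sum_range_succ, add_assoc]
    refine ⟨fun u s => In S ht ch σ F u s + acc (fun c => cU ((seg u).getD c c0))
      (fun c => cD ((seg u).getD c c0)) (fun i => o (u * (m + 1) + i)) (m + 1) s,
      fun u hu => ?_⟩
    have h3 : In S ht ch σ (fun u s => In S ht ch σ F u s + acc (fun c => cU ((seg u).getD c c0))
        (fun c => cD ((seg u).getD c c0)) (fun i => o (u * (m + 1) + i)) (m + 1) s) u =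
        In S ht ch σ F u := by
      funext s
      rw [In, In.eq_1 S ht ch σ F u s]
      split_ifs with b
      · obtain ⟨b1, b2⟩ := hT.pred_lt u hu s b.1 b.2
        have := h2 _ b1 m (by omega) _ b2
        simp only [F] at this ⊢
        rw [this, cost, cf _ m (by omega)]
        simp only [acc, sum_range_succ, add_assoc]
      · rfl
    rw [h3, reach_iff]
    refine ⟨fun i => o (u * (m + 1) + i), fun i hi => ?_, by rw [hl]⟩
    rw [hl] at hi
    rw [← cf u i hi]
    exact ok_congr (h2 u hu i hi) (h _ (idx_lt hu hi)).1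
  · rintro ⟨E, h⟩
    have h' : ∀ u, ∃ o : ℕ → ℕ → ℕ, u < R → _ := fun u => by
      by_cases hu : u < R
      · obtain ⟨o, ho⟩ := (reach_iff _ _ _).1 (h u hu)
        exact ⟨o, fun _ => ho⟩
      · exact ⟨fun _ _ => 0, fun e => absurd e hu⟩
    choose o ho using h'
    refine ⟨fun c => o (c / (m + 1)) (c % (m + 1)), fun c s => In S ht ch σ E (c / (m + 1)) s +
      acc (fun i => cU ((seg (c / (m + 1))).getD i c0))
        (fun i => cD ((seg (c / (m + 1))).getD i c0)) (o (c / (m + 1))) (c % (m + 1)) s,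
      fun c hc => ?_⟩
    obtain ⟨u, hu, i, hi, rfl⟩ := exists_idx hc
    simp only [cf u i hi, div_eq u hi, mod_eq u hi, bht, bch, bsi, e3]
    refine ⟨(ho u hu).1 i (by rwa [hl]), fun s hs => ?_⟩
    rcases i with _ | i
    · by_cases b : ht u = 0
      · simp [In, acc, b]
      · obtain ⟨b1, b2⟩ := hT.pred_lt u hu s hs b
        have hm' : m < m + 1 := by omega
        have := congrFun (ho _ b1).2 (σ u s)
        simp only [b, false_and, if_false, if_true, Nat.add_sub_cancel, div_eq _ hm', mod_eq _ hm',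
          cost, cf _ m hm']
        rw [In, if_pos ⟨hs, b⟩, this, hl]
        simp only [acc, sum_range_succ, add_assoc, range_zero, sum_empty, add_zero]
    · have hi' : i < m + 1 := by omega
      simp only [Nat.succ_ne_zero, and_false, if_false, ← add_assoc, Nat.add_sub_cancel,
        div_eq _ hi', mod_eq _ hi', cost, cf _ i hi', acc, sum_range_succ]

/-- Check columns. -/
def chk (n I G : ℕ) (ν : ℕ → ℕ) (bad : ℕ → ℕ → ℕ → ℕ → Bool) : List Col :=
  (List.range G).flatMap fun g => (List.range G).flatMap fun g' =>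
    (List.range I).flatMap fun a => (List.range I).map fun b =>
      (0, g, if bad g (a % n) g' (b % n) = true then a else I, n * ν g - a, g', b, n * ν g' - b)

theorem chk_iff {n I G : ℕ} {ν : ℕ → ℕ} {bad : ℕ → ℕ → ℕ → ℕ → Bool} (hS : 0 < S)
    (A B : ℕ → ℕ) : Reach S (chk n I G ν bad) A B ↔ B = A ∧ ∀ g < G, ∀ g' < G, ∀ a < I, ∀ b < I,
      ∃ i, 0 < i ∧ i < S ∧ A (i - 1) + A i < tH (0, g, if bad g (a % n) g' (b % n) = true then a
        else I, n * ν g - a, g', b, n * ν g' - b) i := by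
  rw [reach_chk] <;>
  simp only [chk, List.forall_mem_flatMap, List.mem_range, List.forall_mem_map, ok_iff _ _ hS,
    implies_true]

theorem chk_sound {n I G : ℕ} {ν : ℕ → ℕ} {bad : ℕ → ℕ → ℕ → ℕ → Bool} (hS : 0 < S)
    {A B : ℕ → ℕ} (h : Reach S (chk n I G ν bad) A B) : B = A ∧ ∀ g < G, ∀ g' < G,
      A (3 * g + 1) < I → n * ν g ≤ A (3 * g + 1) + A (3 * g + 2) →
      A (3 * g' + 1) < I → n * ν g' ≤ A (3 * g' + 1) + A (3 * g' + 2) →
      bad g (A (3 * g + 1) % n) g' (A (3 * g' + 1) % n) = false := by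
  obtain ⟨h1, h2⟩ := (chk_iff hS A B).1 h
  refine ⟨h1, fun g hg g' hg' a1 a2 a3 a4 => by_contra fun e => ?_⟩
  obtain ⟨i, -, -, hi⟩ := h2 g hg g' hg' _ a1 _ a3
  rw [if_pos (by simpa using e)] at hi
  simp only [tH, lt_max_iff] at hi
  rcases hi with (hi | hi) | hi | hi <;> split_ifs at hi with e <;>
    first | omega | (subst e; simp only [Nat.add_succ_sub_one] at hi; omega)

theorem chk_complete {n I G : ℕ} {ν : ℕ → ℕ} {bad : ℕ → ℕ → ℕ → ℕ → Bool} (hS : 3 * G < S)
    {A : ℕ → ℕ} (h0 : ∀ g, A (3 * g) = 0) (h1 : ∀ g < G, A (3 * g + 1) < I)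
    (h2 : ∀ g a g' b, bad g a g' b = true → A (3 * g + 1) + A (3 * g + 2) = n * ν g ∧
      A (3 * g' + 1) + A (3 * g' + 2) = n * ν g')
    (h3 : ∀ g < G, ∀ g' < G, bad g (A (3 * g + 1) % n) g' (A (3 * g' + 1) % n) = false) :
    Reach S (chk n I G ν bad) A A := by
  refine (chk_iff (by omega) A A).2 ⟨rfl, fun g hg g' hg' a _ b _ => ?_⟩
  by_cases hb : bad g (a % n) g' (b % n) = true
  · rw [if_pos hb]
    have key : ∀ g a, A (3 * g + 1) + A (3 * g + 2) = n * ν g → A (3 * g + 1) ≠ a →
        A (3 * g + 1 - 1) + A (3 * g + 1) < a ∨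
        A (3 * g + 3 - 1) + A (3 * g + 3) < n * ν g - a := by
      intro g a h' h
      have := h0 g
      have : A (3 * g + 3) = 0 := h0 (g + 1)
      simp only [Nat.add_succ_sub_one, add_zero]
      omega
    by_cases e1 : A (3 * g + 1) = a
    · by_cases e2 : A (3 * g' + 1) = b
      · rw [← e1, ← e2, h3 g hg g' hg'] at hb
        exact absurd hb (by simp)
      · rcases key g' b (h2 _ _ _ _ hb).2 e2 with h | h
        · exact ⟨3 * g' + 1, by omega, by omega, h.trans_le (by simp [tH])⟩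
        · exact ⟨3 * g' + 3, by omega, by omega, h.trans_le (by simp [tH])⟩
    · rcases key g a (h2 _ _ _ _ hb).1 e1 with h | h
      · exact ⟨3 * g + 1, by omega, by omega, h.trans_le (by simp [tH])⟩
      · exact ⟨3 * g + 3, by omega, by omega, h.trans_le (by simp [tH])⟩
  · rw [if_neg hb]
    refine ⟨3 * g + 1, by omega, by omega, lt_of_lt_of_le ?_ (by simp [tH] : I ≤ _)⟩
    have := h1 g hg
    simpa [h0 g] using this

end Pool.Agent.Work.MP_1e0b64_lc.X
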