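import Pool.Agent.Work.MP_1e0b64_lc.X.Red

/-!
Simulation of an alternating machine by a constraint satisfaction problem on a plane tree.
-/

namespace Pool.Agent.Work.MP_1e0b64_lc.X

open Pool.Agent.Lib.Cx

/-- Constraints inside a node. -/
def q0 (M : ATM) (w s T h u a b : ℕ) : Prop :=
  vq M.toNTM a = vq M.toNTM b ∧ vp a = vp b ∧ vh a = vh b ∧ vh a < s * w ∧
    (u = T → vq M.toNTM a = M.start ∧ vp a = 0 ∧ vh a = 0 ∧ ∀ i < w, vB a i = false) ∧
    (u % (T + 1) = 0 → M.acc (vq M.toNTM a) = true ∨ h ≠ 0 ∧ M.univ (vq M.toNTM a) = true)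

/-- Constraints between a node and a child. -/
def q1 (M : ATM) (x : List Bool) (w T u j a : ℕ) (e : Bool) (b : ℕ) : Prop :=
  M.acc (vq M.toNTM a) = true ∨ (∀ i < w, j * w + i ≠ vh a → vB b i = vB a i) ∧ (vh a / w = j →
    (vq M.toNTM b = (if u % (T + 1) = 0 then M.br (vq M.toNTM a) e else vq M.toNTM a) ∧
      vp b = vp a ∧ vh b = vh a ∧ vB b (vh a % w) = vB a (vh a % w)) ∨
    u % (T + 1) ≠ 0 ∧ M.univ (vq M.toNTM a) = false ∧ ∃ m < 3, ∃ m' < 3,
      M.δ (vq M.toNTM a) (inputSym x (vp a)) (vB a (vh a % w)) (vq M.toNTM b) (mv m)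
        (vB b (vh a % w)) (mv m') = true ∧ vp b = min (vp a + m - 1) (x.length + 1) ∧
      vh b = vh a + m' - 1)

/-- Trees of configurations. -/
def CS (M : ATM) (x : List Bool) (s T R : ℕ) (ht : ℕ → ℕ) (cd : ℕ → Bool → ℕ)
    (C : ℕ → NCfg M.toNTM) : Prop :=
  ∀ u < R, (C u).head < s ∧ (u = T → C u = ⟨M.start, 0, fun _ => false, 0⟩) ∧
    (u % (T + 1) = 0 → M.acc (C u).q = true ∨ ht u ≠ 0 ∧ M.univ (C u).q = true) ∧
    (ht u ≠ 0 → ∀ e, M.acc (C u).q = true ∨ C (cd u e) = ⟨if u % (T + 1) = 0 then M.br (C u).q e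
      else (C u).q, (C u).pos, (C u).tape, (C u).head⟩ ∨
      u % (T + 1) ≠ 0 ∧ M.univ (C u).q = false ∧ M.toNTM.Step x (C u) (C (cd u e)))

variable {M : ATM} {x : List Bool} {w s T R n : ℕ} {ht : ℕ → ℕ} {cd : ℕ → Bool → ℕ}

theorem cs_sound (hw : 0 < w) (hcd : ∀ u < R, ht u ≠ 0 → ∀ e, cd u e < R) {Y : ℕ → ℕ → ℕ}
    (h : ∀ u < R, ∀ j < s + 1, Y u j < n ∧ (∀ j' < s + 1, q0 M w s T (ht u) u (Y u j) (Y u j')) ∧
      (ht u ≠ 0 → ∀ e, q1 M x w T u j (Y u j) e (Y (cd u e) j))) :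
    ∃ C, CS M x (s * w) T R ht cd C := by
  have h0 := fun u hu j hj => (h u hu j hj).2.1 0 (by omega)
  refine ⟨fun u => ⟨vq M.toNTM (Y u 0), vp (Y u 0),
    fun i => decide (i / w ≤ s) && vB (Y u (i / w)) (i % w), vh (Y u 0)⟩, fun u hu =>
    ⟨(h0 u hu 0 (by omega)).2.2.2.1, fun e => ?_, (h0 u hu 0 (by omega)).2.2.2.2.2,
      fun hh e => or_iff_not_imp_left.2 fun ha => ?_⟩⟩
  · obtain ⟨h1, h2, h3, -⟩ := (h0 u hu 0 (by omega)).2.2.2.2.1 e
    simp only [h1, h2, h3, NCfg.mk.injEq, true_and, and_true]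
    funext i
    by_cases e' : i / w ≤ s
    · simp [((h0 u hu _ (Nat.lt_succ_of_le e')).2.2.2.2.1 e).2.2.2 _ (Nat.mod_lt i hw)]
    · simp [e']
  have h1 : ∀ j ≤ s, _ := fun j hj => ((h u hu j (by omega)).2.2 hh e).resolve_left (by
    rw [(h0 u hu j (by omega)).1]
    exact ha)
  have h2 : vh (Y u 0) / w ≤ s :=
    (Nat.div_lt_of_lt_mul (Nat.mul_comm s w ▸ (h0 u hu 0 (by omega)).2.2.2.1)).le
  obtain ⟨a1, a2, a3, -⟩ := h0 u hu (vh (Y u 0) / w) (by omega)
  obtain ⟨b1, b2, b3, -⟩ := h0 _ (hcd u hu hh e) (vh (Y u 0) / w) (by omega)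
  have key : ∀ i, i ≠ vh (Y u 0) → (decide (i / w ≤ s) && vB (Y (cd u e) (i / w)) (i % w)) =
      (decide (i / w ≤ s) && vB (Y u (i / w)) (i % w)) := fun i hi => by
    by_cases e' : i / w ≤ s
    · rw [(h1 _ e').1 _ (Nat.mod_lt i hw) (by
        rwa [Nat.div_add_mod', (h0 u hu _ (by omega)).2.2.1])]
    · simp [e']
  have := (h1 _ h2).2 (by rw [a3])
  rw [a1, a2, a3, b1, b2, b3] at this
  rcases this with ⟨c1, c2, c3, c4⟩ | ⟨c0, c0', m, hm, m', hm', c1, c2, c3⟩
  · refine Or.inl ?_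
    simp only [NCfg.mk.injEq]
    refine ⟨c1, c2, funext fun i => ?_, c3⟩
    by_cases e' : i = vh (Y u 0)
    · rw [e', c4]
    · exact key i e'
  · refine Or.inr ⟨c0, c0', mv m, _, mv m', by simpa [h2] using c1, by simp only [mv_apply hm, c2],
      funext fun i => ?_, by simp only [mv_apply hm', c3]⟩
    by_cases e' : i = vh (Y u 0)
    · simp [e', h2]
    · rw [Function.update_of_ne e']
      exact key i e'

theorem cs_complete {D : ℕ} (hw : 0 < w) (hD : 2 ^ w + M.a + x.length + 2 + s * w ≤ D)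
    {C : ℕ → NCfg M.toNTM} (h : CS M x (s * w) T R ht cd C)
    (hp : ∀ u < R, (C u).pos ≤ x.length + 1) : ∃ Y : ℕ → ℕ → ℕ, ∀ u < R, ∀ j < s + 1,
      Y u j < (D ^ 2) ^ 2 ∧ (∀ j' < s + 1, q0 M w s T (ht u) u (Y u j) (Y u j')) ∧
      (ht u ≠ 0 → ∀ e, q1 M x w T u j (Y u j) e (Y (cd u e) j)) := by
  obtain ⟨v, hv, v1, v2, v3, v4⟩ : ∃ v : ℕ → ℕ → ℕ, (∀ t < R, ∀ j, v t j < (D ^ 2) ^ 2) ∧
      (∀ t j, vq M.toNTM (v t j) = (C t).q) ∧ (∀ t j, vp (v t j) = (C t).pos) ∧
      (∀ t j, vh (v t j) = (C t).head) ∧ ∀ t j, ∀ i < w, vB (v t j) i = (C t).tape (j * w + i) := by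
    refine ⟨fun t j => Nat.pair (Nat.pair (Nat.ofBits fun i : Fin w => (C t).tape (j * w + i))
      (C t).q) (Nat.pair (C t).pos (C t).head), fun t ht j => ?_, fun t j => ?_, fun t j => ?_,
      fun t j => ?_, fun t j i hi => ?_⟩
    · have := Nat.ofBits_lt_two_pow fun i : Fin w => (C t).tape (j * w + i)
      have := (C t).q.2
      have := hp t ht
      have := (h t ht).1
      exact pair_lt (pair_lt (by omega) (by omega)) (pair_lt (by omega) (by omega))
    · simp [vq, Nat.mod_eq_of_lt]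
    · simp [vp]
    · simp [vh]
    · simp [vB, Nat.testBit_ofBits_lt _ _ hi]
  refine ⟨v, fun u hu j _ => ⟨hv u hu j, fun j' _ => ?_, fun hh e => ?_⟩⟩
  · simp only [q0, v1, v2, v3, true_and]
    refine ⟨(h u hu).1, fun e => ?_, (h u hu).2.2.1⟩
    simp +contextual [(h u hu).2.1 e, v4]
  simp only [q1, v1, v2, v3, v4 _ _ _ (Nat.mod_lt _ hw)]
  refine ((h u hu).2.2.2 hh e).imp id ?_
  rintro (c | ⟨c0, c0', m, b, m', c1, c2, c3, c4⟩)
  · exact ⟨fun i hi _ => by rw [v4 _ _ i hi, v4 _ _ i hi, c], fun _ => Or.inl (by simp [c])⟩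
  obtain ⟨m, hm, rfl⟩ := mv_surj m
  obtain ⟨m', hm', rfl⟩ := mv_surj m'
  refine ⟨fun i hi e => by rw [v4 _ _ i hi, v4 _ _ i hi, c3, Function.update_of_ne e],
    fun e => Or.inr ⟨c0, c0', m, hm, m', hm', ?_, by rw [c2, mv_apply hm],
      by rw [c4, mv_apply hm']⟩⟩
  rwa [← e, Nat.div_add_mod', c3, Function.update_self]

/-- The children in the tree of the simulation. -/
def cdf (T u : ℕ) (e : Bool) : ℕ :=
  if u % (T + 1) = 0 then (2 * (u / (T + 1)) + if e then 2 else 1) * (T + 1) + T else u - 1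

theorem ATM.Acc.mono {d t : ℕ} {c : NCfg M.toNTM} (h : M.Acc x s T d t c) :
    M.Acc x s T d (t + 1) c := by
  induction h with
  | acc h1 h2 => exact .acc h1 h2
  | step h1 h2 h3 _ ih => exact .step h1 h2 h3 ih
  | all h1 h2 h3 => exact .all h1 h2 h3

theorem ATM.Acc.head {d t : ℕ} {c : NCfg M.toNTM} (h : M.Acc x s T d t c) : c.head < s := by
  cases h <;> assumption

variable {N d : ℕ}

theorem hht_ch (hN : N + 1 = 2 ^ (d + 1)) {v : ℕ} (hv : v + 1 < N) :
    hht N d (v / 2) = hht N d (v + 1) + 1 :=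
  (heap_pt hN 0).ht_pa _ hv

theorem acc_of_cs (hN : N + 1 = 2 ^ (d + 1)) {C : ℕ → NCfg M.toNTM}
    (h : CS M x s T (N * (T + 1)) (bht (T + 1) (hht N d)) (cdf T) C) : M.Accepts x s T d := by
  have key : ∀ v < N, ∀ i < T + 1, M.Acc x s T (hht N d v) i (C (v * (T + 1) + i)) := by
    intro v
    induction hn : N - v using Nat.strong_induction_on generalizing v with
    | _ n ih =>
      intro hv i
      induction i with
      | zero =>
        intro hi
        obtain ⟨a1, -, a2, a3⟩ := h _ (idx_lt hv hi)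
        simp only [bht, cdf, div_eq v hi, mod_eq v hi, if_true, ne_eq, not_true, false_and,
          or_false] at a2 a3
        by_cases ha : M.acc (C (v * (T + 1) + 0)).q = true
        · exact .acc a1 ha
        obtain ⟨b1, b2⟩ := (a2 trivial).resolve_left ha
        have b3 := (hht_ne hN hv).1.1 fun e => b1 (by simp [e])
        have b4 := hht_ch hN (show 2 * v + 1 < N by omega)
        have b5 := hht_ch hN (show 2 * v + 1 + 1 < N by omega)
        rw [show 2 * v / 2 = v by omega] at b4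
        rw [show (2 * v + 1) / 2 = v by omega] at b5
        rw [b4]
        refine .all a1 b2 fun e => ?_
        rw [← (a3 b1 e).resolve_left ha]
        cases e
        · exact ih _ (by omega) _ rfl (by omega) T (by omega)
        · rw [show hht N d (2 * v + 1) = hht N d (2 * v + 1 + 1) by omega]
          exact ih _ (by omega) _ rfl (by omega) T (by omega)
      | succ i ih' =>
        intro hi
        obtain ⟨a1, -, -, a3⟩ := h _ (idx_lt hv hi)
        simp only [bht, cdf, div_eq v hi, mod_eq v hi, Nat.succ_ne_zero, if_false,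
          show v * (T + 1) + (i + 1) - 1 = v * (T + 1) + i by omega] at a3
        have := ih' (by omega)
        rcases a3 (by omega) false with a | a | ⟨-, a, a'⟩
        · exact .acc a1 a
        · rw [a] at this
          exact this.mono
        · exact .step a1 a a' this
  have hN0 : 0 < N := by
    have := Nat.one_le_two_pow (n := d)
    rw [pow_succ] at hN
    omega
  have := key 0 hN0 T (by omega)
  rwa [(h _ (idx_lt hN0 (Nat.lt_succ_self T))).2.1 (by omega), show hht N d 0 = d by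
    simp [hht, hN0]] at this

/-- The configurations of an accepting computation tree. -/
def cfg {β : Type} (T : ℕ) (c0 : β) (br : Bool → β → β) (nx : ℕ → ℕ → β → β) : ℕ → ℕ → β
  | 0, 0 => c0
  | v + 1, 0 => br (decide (v % 2 = 1)) (cfg T c0 br nx (v / 2) T)
  | v, r + 1 => nx v (T - (r + 1)) (cfg T c0 br nx v r)
termination_by v r => (v, r)
decreasing_by
  · exact Prod.Lex.left _ _ (by omega)
  · exact Prod.Lex.right _ (by omega)

theorem cs_of_acc (hN : N + 1 = 2 ^ (d + 1)) (h : M.Accepts x s T d) :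
    ∃ C, CS M x s T (N * (T + 1)) (bht (T + 1) (hht N d)) (cdf T) C ∧
      ∀ u < N * (T + 1), (C u).pos ≤ x.length + 1 := by
  have step : ∀ v i (c : NCfg M.toNTM), ∃ c' : NCfg M.toNTM,
      M.Acc x s T (hht N d v) (i + 1) c → c.pos ≤ x.length + 1 →
      (M.Acc x s T (hht N d v) i c' ∧ c'.pos ≤ x.length + 1) ∧
        (c' = c ∨ M.univ c.q = false ∧ M.toNTM.Step x c c') := by
    intro v i c
    by_cases h : M.Acc x s T (hht N d v) (i + 1) c
    swap
    · exact ⟨c, fun e => absurd e h⟩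
    generalize hht N d v = d at h ⊢
    cases h with
    | acc h1 h2 => exact ⟨c, fun _ hp => ⟨⟨.acc h1 h2, hp⟩, Or.inl rfl⟩⟩
    | step h1 h2 h3 h4 =>
      refine ⟨_, fun _ _ => ⟨⟨h4, ?_⟩, Or.inr ⟨h2, h3⟩⟩⟩
      obtain ⟨m, b, m', -, e, -⟩ := h3
      omega
    | all h1 h2 h3 => exact ⟨c, fun _ hp => ⟨⟨.all h1 h2 h3, hp⟩, Or.inl rfl⟩⟩
  choose nx hx using step
  obtain ⟨C, c1, c2, c3⟩ : ∃ C : ℕ → ℕ → NCfg M.toNTM, C 0 0 = ⟨M.start, 0, fun _ => false, 0⟩ ∧
      (∀ v, C (v + 1) 0 = if M.acc (C (v / 2) T).q = true then C (v / 2) T else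
        ⟨M.br (C (v / 2) T).q (decide (v % 2 = 1)), (C (v / 2) T).pos, (C (v / 2) T).tape,
          (C (v / 2) T).head⟩) ∧ ∀ v r, C v (r + 1) = nx v (T - (r + 1)) (C v r) :=
    ⟨cfg T ⟨M.start, 0, fun _ => false, 0⟩ (fun e c => if M.acc c.q = true then c else
      ⟨M.br c.q e, c.pos, c.tape, c.head⟩) nx, by rw [cfg], fun v => by rw [cfg],
      fun v r => by rw [cfg]⟩
  have key : ∀ v < N, ∀ r ≤ T, M.Acc x s T (hht N d v) (T - r) (C v r) ∧
      (C v r).pos ≤ x.length + 1 := by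
    intro v
    induction v using Nat.strong_induction_on with
    | _ v ih =>
      intro hv r
      induction r with
      | succ r ih' =>
        intro hr
        have := ih' (by omega)
        rw [show T - r = T - (r + 1) + 1 by omega] at this
        exact c3 v r ▸ (hx _ _ _ this.1 this.2).1
      | zero =>
        intro _
        rcases v with _ | v
        · rw [c1, show hht N d 0 = d by simp [hht, hv]]
          exact ⟨h, Nat.zero_le _⟩
        obtain ⟨a1, a2⟩ := ih (v / 2) (by omega) (by omega) T le_rfl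
        rw [hht_ch hN hv, Nat.sub_self] at a1
        rw [c2]
        split_ifs with ha
        · exact ⟨.acc a1.head ha, a2⟩
        · cases a1 with
          | acc _ h2 => exact absurd h2 ha
          | all _ _ h3 => exact ⟨h3 _, a2⟩
  refine ⟨fun u => C (u / (T + 1)) (T - u % (T + 1)), fun u hu => ?_, fun u hu =>
    (key _ (lev_lt hu) _ (Nat.sub_le _ _)).2⟩
  obtain ⟨v, hv, i, hi, rfl⟩ := exists_idx hu
  have a := key v hv (T - i) (Nat.sub_le _ _)
  simp only [bht, cdf, div_eq v hi, mod_eq v hi]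
  refine ⟨a.1.head, fun e => ?_, fun e => ?_, fun hh e => ?_⟩
  · obtain ⟨rfl, rfl⟩ := (idx_inj hi (Nat.lt_succ_self T)).1 (e.trans (by omega : T = 0 * _ + T))
    rw [Nat.sub_self, c1]
  · subst e
    have b := a.1
    rw [Nat.sub_zero, Nat.sub_self] at b
    generalize hht N d v = d' at b ⊢
    generalize C v T = c at b
    cases b with
    | acc _ h2 => exact Or.inl h2
    | all _ h2 => exact Or.inr ⟨by positivity, h2⟩
  rcases i with _ | i
  · simp only [if_true, div_eq _ (Nat.lt_succ_self T), mod_eq _ (Nat.lt_succ_self T), Nat.sub_self,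
      Nat.sub_zero]
    refine or_iff_not_imp_left.2 fun ha => Or.inl ?_
    cases e
    · simpa [ha] using c2 (2 * v)
    · simpa [ha, show (2 * v + 1) / 2 = v by omega] using c2 (2 * v + 1)
  · have hi' : i < T + 1 := by omega
    have := c3 v (T - (i + 1))
    rw [show T - (i + 1) + 1 = T - i by omega, show T - (T - i) = i by omega] at this
    rw [show T - (T - (i + 1)) = i + 1 by omega] at a
    simp only [Nat.succ_ne_zero, if_false, ← add_assoc, Nat.add_sub_cancel, div_eq v hi',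
      mod_eq v hi', this]
    exact Or.inr ((hx _ _ _ a.1 a.2).2.imp id fun e => ⟨by omega, e⟩)

theorem slots (k m : ℕ) : Slots k (bch m (hch (6 * k + 6))) (bsi m (hsi (6 * k + 6))) := by
  intro u g hg
  unfold bch bsi hch hsi used
  by_cases e : u % m = 0
  · simp only [if_pos e]
    by_cases b : g < 2 * k + 2
    · exact ⟨g + (2 * k + 2), by omega, by omega, by omega, fun r hr => by
        rw [if_pos (by omega), if_pos (by omega), if_pos (by omega)]
        omega⟩
    · exact ⟨g - (2 * k + 2), by omega, by omega, by omega, fun r hr => by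
        rw [if_neg (by omega), if_neg (by omega), if_neg (by omega)]
        omega⟩
  · simp only [if_neg e]
    exact ⟨g, hg, rfl, id, fun _ _ => ⟨trivial, rfl⟩⟩

theorem bch_eq (k T u s : ℕ) : bch (T + 1) (hch k) u s = cdf T u (decide (k ≤ s)) := by
  unfold bch cdf hch
  by_cases b : s < k
  · simp [b, b.not_ge]
  · simp [b, not_lt.1 b]

variable {α : Type} [Obj α]

@[fun_prop] theorem ls_univ (M : ATM) {q : α → Fin M.a} (hq : LS q) : LS fun x => M.univ (q x) :=
  hq.finite_comp _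

@[fun_prop] theorem ls_br (M : ATM) {q : α → Fin M.a} {e : α → Bool} (hq : LS q) (he : LS e) :
    LS fun x => M.br (q x) (e x) :=
  (hq.pair he).finite_comp fun p => M.br p.1 p.2

@[fun_prop] theorem ls_q0 (M : ATM) {w s T h u a b : α → ℕ} (hw : LS w) (hs : LS s) (hT : LS T)
    (hh : LS h) (hu : LS u) (ha : LS a) (hb : LS b) :
    LSP fun y => q0 M (w y) (s y) (T y) (h y) (u y) (a y) (b y) := by
  unfold q0
  refine .of_decide (inst := fun _ => inferInstance) ?_
  fun_prop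

@[fun_prop] theorem ls_q1 (M : ATM) {x : α → List Bool} {w T u j a b : α → ℕ} {e : α → Bool}
    (hx : LS x) (hw : LS w) (hT : LS T) (hu : LS u) (hj : LS j) (ha : LS a) (he : LS e)
    (hb : LS b) : LSP fun y => q1 M (x y) (w y) (T y) (u y) (j y) (a y) (e y) (b y) := by
  unfold q1 inputSym
  refine .of_decide (inst := fun _ => inferInstance) ?_
  fun_prop

@[fun_prop] theorem ls_blk {k g : α → ℕ} (hk : LS k) (hg : LS g) :
    LS fun y => blk (k y) (g y) := by
  unfold blk
  fun_prop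

@[fun_prop] theorem ls_used {k g : α → ℕ} (hk : LS k) (hg : LS g) :
    LSP fun y => used (k y) (g y) := by
  unfold used
  refine .of_decide (inst := fun _ => inferInstance) ?_
  fun_prop

theorem ls_pow {a : α → ℕ} (ha : LS a) : LS fun y => 2 ^ Nat.log 2 (a y) := by
  have key : ∀ i, (Nat.rec 1 (fun _ c => 2 * c) i : ℕ) = 2 ^ i := fun i => by
    induction i with
    | zero => rfl
    | succ i ih => simp only [ih, pow_succ']
  refine (LS.natRec (n := fun y => Nat.log 2 (a y)) (s := fun _ => 1) (t := fun q => 2 * q.1)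
    (by fun_prop) (by fun_prop) (by fun_prop) (fun y => a y + 1) (by fun_prop)
    fun y i hi => ?_).congr fun y => key _
  rw [key]
  exact (Nat.pow_le_pow_right two_pos hi.le).trans (Nat.pow_log_le_add_one 2 _)

theorem main (M : ATM) : ∃ R : List Bool → List Bool, LS R ∧ ∀ (x : List Bool) (s T D : ℕ),
    ∃ (N : ℕ) (H : SimpleGraph (Fin N)) (K : ℕ), R (pre s (pre T (pre D x))) = encode H K ∧
      H.Connected ∧ H.IsBipartite ∧ IsPlanar H ∧ TreewidthLE H (144 * s + 294) ∧
      (stc H ≤ K ↔ M.Accepts x (s * (Nat.log 2 x.length + 1)) T (Nat.log 2 D)) := by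
  classical
  obtain ⟨N, hN, eN⟩ : ∃ N : ℕ → ℕ, LS N ∧ ∀ D, N D + 1 = 2 ^ (Nat.log 2 D + 1) :=
    ⟨fun D => 2 * 2 ^ Nat.log 2 D - 1, ((LS.const 2).mul (ls_pow LS.id')).sub (LS.const 1),
      fun D => by
        have := Nat.one_le_two_pow (n := Nat.log 2 D)
        simp only [pow_succ]
        omega⟩
  have hT := fun k T D => (heap_pt (eN D) (6 * k + 6)).blow (Nat.succ_pos T)
  have hh : LS fun p : (ℕ × ℕ × ℕ × List Bool) × ℕ =>
      bht (p.1.2.1 + 1) (hht (N p.1.2.2.1) (Nat.log 2 p.1.2.2.1)) p.2 := by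
    unfold bht hht
    fun_prop
  obtain ⟨R, h1, h2⟩ := csp_red (α := ℕ × ℕ × ℕ × List Bool)
    (n := fun p => ((3 * p.2.2.2.length + M.a + 4 + p.1 * (Nat.log 2 p.2.2.2.length + 1)) ^ 2) ^ 2)
    (R := fun p => N p.2.2.1 * (p.2.1 + 1)) (k := fun p => p.1 + 1)
    (pa := fun p => bpa (p.2.1 + 1) (hpa (N p.2.2.1)))
    (ht := fun p => bht (p.2.1 + 1) (hht (N p.2.2.1) (Nat.log 2 p.2.2.1)))
    (μ := fun p => bmu (p.2.1 + 1) (hmu (6 * (p.1 + 1) + 6)))
    (bad := fun p => bd (p.1 + 1) (bht (p.2.1 + 1) (hht (N p.2.2.1) (Nat.log 2 p.2.2.1)))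
      (fun u => q0 M (Nat.log 2 p.2.2.2.length + 1) p.1 p.2.1
        (bht (p.2.1 + 1) (hht (N p.2.2.1) (Nat.log 2 p.2.2.1)) u) u)
      (q1 M p.2.2.2 (Nat.log 2 p.2.2.2.length + 1) p.2.1))
    (by fun_prop) (by fun_prop) (by fun_prop) (by unfold bpa hpa; fun_prop) hh
    (by unfold bmu hmu; fun_prop) (by
      have hh' : LS fun p : (ℕ × ℕ × ℕ × List Bool) × ℕ × ℕ × ℕ × ℕ × ℕ =>
          bht (p.1.2.1 + 1) (hht (N p.1.2.2.1) (Nat.log 2 p.1.2.2.1)) p.2.1 :=
        LS.comp _ (fun p : (ℕ × ℕ × ℕ × List Bool) × ℕ × ℕ × ℕ × ℕ × ℕ => (p.1, p.2.1)) hh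
          (by fun_prop)
      unfold bd
      exact LS.decide_not (LS.decide_imp (LS.decide_and (by fun_prop) (by fun_prop)) (LS.decide_imp
        (LS.decide_eq_nat (by fun_prop) (hh'.mod (by fun_prop))) (LS.decide_and (LS.decide_imp
          (by fun_prop) (LS.decide_and (by fun_prop) (ls_q0 M (by fun_prop) (by fun_prop)
            (by fun_prop) hh' (by fun_prop) (by fun_prop) (by fun_prop)).out)) (LS.decide_imp
          (by fun_prop) (LS.decide_imp (LS.decide_ne hh' (by fun_prop)) (LS.decide_imp (by fun_prop)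
            (by fun_prop))))))))
    (fun p => hT _ _ _) (fun p => slots _ _)
    (fun p => by positivity) fun p u g a g' b e => by_contra fun e' => by simp [bd, e'] at e
  have hd : LS fun y : List Bool => (y.idxOf false, y.drop (y.idxOf false + 1)) := by fun_prop
  obtain ⟨f, hf, ef⟩ : ∃ f : List Bool → ℕ × List Bool, LS f ∧ ∀ n x, f (pre n x) = (n, x) :=
    ⟨_, hd, fun n x => by simp only [pre_idx, pre_drop]⟩
  refine ⟨fun y => R ((f y).1, (f (f y).2).1, f (f (f y).2).2), LS.comp _ _ h1 (by fun_prop),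
    fun x s T D => ?_⟩
  obtain ⟨n, H, K, a1, a2, a0, a3, a4, a5⟩ := h2 (s, T, D, x)
  refine ⟨n, H, K, by simpa only [ef] using a1, a2, a0, a3, a4, a5.trans ((sol_iff (cd := cdf T)
    (hT _ _ _) (by positivity) fun u g hg => ⟨?_, ?_⟩).trans ⟨fun ⟨Y, h⟩ => ?_, fun h => ?_⟩)⟩
  · rw [bch_eq]
    congr 2
    simp only [eq_iff_iff]
    omega
  · unfold bsi hsi blk used at *
    simp only at *
    split_ifs <;> omega
  · obtain ⟨C, hC⟩ := cs_sound (Nat.succ_pos _) (fun u hu h0 e => by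
      have := ((hT (s + 1) T D).pred_lt u hu (if e then 6 * (s + 1) + 6 else 0)
        (by split_ifs <;> omega) h0).1
      rw [bch_eq] at this
      cases e <;> simpa using this) h
    exact acc_of_cs (eN D) hC
  · obtain ⟨C, hC, hp⟩ := cs_of_acc (eN D) h
    refine cs_complete (Nat.succ_pos _) ?_ hC hp
    have := Nat.pow_log_le_add_one 2 x.length
    simp only [pow_succ]
    omega

end Pool.Agent.Work.MP_1e0b64_lc.X
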