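import Pool.Agent.Work.MP_1e0b64_lc.X.Lev

/-!
Plane trees of columns whose rows are merged at the junctions.
-/

namespace Pool.Agent.Work.MP_1e0b64_lc.X

open Finset

/-- A plane tree on the numbers below `R` with parent `pa`, height `ht`, row maps `μ`; the strip
`s` of a node `a` of positive height comes from the strip `σ a s` of the child `ch a s`. -/
structure PT (R S : ℕ) (pa : ℕ → ℕ) (μ : ℕ → ℕ → ℕ) (ht : ℕ → ℕ) (ch σ : ℕ → ℕ → ℕ) : Prop where
  pa_le : ∀ u < R, pa u ≤ R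
  ht_pa : ∀ u < R, ht (pa u) = ht u + 1
  ht_le : ∀ u ≤ R, ht u ≤ R
  step : ∀ u j, μ u j ≤ μ u (j + 1) ∧ μ u (j + 1) ≤ μ u j + 1
  mu_le : ∀ u, ∀ j ≤ S, μ u j ≤ S
  pred : ∀ a < R, ∀ s' < S, ∀ u < R, ∀ s < S,
    (pa u = a ∧ μ u s = s' ∧ μ u (s + 1) = s' + 1) ↔ (ht a ≠ 0 ∧ u = ch a s' ∧ s = σ a s')
  pred_lt : ∀ a < R, ∀ s < S, ht a ≠ 0 → ch a s < R ∧ σ a s < S
  plan : ∀ u u', u < u' → u' < R → ht u = ht u' →
    pa u < pa u' ∨ pa u = pa u' ∧ (pa u = R ∨ μ u S ≤ μ u' 0)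

/-- Flow of rows. -/
def fl (R : ℕ) (pa : ℕ → ℕ) (μ : ℕ → ℕ → ℕ) : ℕ × ℕ → ℕ × ℕ → Prop :=
  Relation.ReflTransGen fun x y => x.1 < R ∧ y = (pa x.1, μ x.1 x.2)

/-- Flow of strips. -/
def sfl (R S : ℕ) (pa : ℕ → ℕ) (μ : ℕ → ℕ → ℕ) : ℕ × ℕ → ℕ × ℕ → Prop :=
  Relation.ReflTransGen fun x y => x.1 < R ∧ x.2 < S ∧ μ x.1 (x.2 + 1) = μ x.1 x.2 + 1 ∧
    y = (pa x.1, μ x.1 x.2)

open Classical in
/-- The sum of `f` over the strips that flow into the strip `s` of `a`. -/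
noncomputable def NB (R S : ℕ) (pa : ℕ → ℕ) (μ : ℕ → ℕ → ℕ) (f : ℕ → ℕ → ℕ) (a s : ℕ) : ℕ :=
  ∑ c ∈ range R, ∑ t ∈ range S, if sfl R S pa μ (c, t) (a, s) ∧ c ≠ a then f c t else 0

variable {R S : ℕ} {pa ht : ℕ → ℕ} {μ ch σ : ℕ → ℕ → ℕ}

theorem sfl_fl {x y : ℕ × ℕ} (h : sfl R S pa μ x y) : fl R pa μ x y := by
  induction h with
  | refl => exact Relation.ReflTransGen.refl
  | tail _ h ih => exact ih.tail ⟨h.1, h.2.2.2⟩

theorem PT.fl_ht (h : PT R S pa μ ht ch σ) {x y : ℕ × ℕ} (hf : fl R pa μ x y) :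
    x = y ∨ ht x.1 < ht y.1 := by
  induction hf with
  | refl => exact Or.inl rfl
  | tail _ h2 ih =>
    have := h.ht_pa _ h2.1
    rw [h2.2]
    rcases ih with rfl | ih <;> exact Or.inr (by simp only; omega)

theorem PT.fl_self (h : PT R S pa μ ht ch σ) {a j i : ℕ} : fl R pa μ (a, j) (a, i) ↔ j = i :=
  ⟨fun hf => by simpa using h.fl_ht hf, fun e => e ▸ Relation.ReflTransGen.refl⟩

theorem fl_step {c j a i : ℕ} (hc : c < R) (hne : c ≠ a) :
    fl R pa μ (c, j) (a, i) ↔ fl R pa μ (pa c, μ c j) (a, i) := by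
  refine ⟨fun hf => ?_, fun hf => hf.head ⟨hc, rfl⟩⟩
  rcases hf.cases_head with e | ⟨y, e, hf⟩
  · exact absurd (congrArg Prod.fst e) hne
  · exact e.2 ▸ hf

theorem fl_root {j a i : ℕ} (ha : a < R) : ¬ fl R pa μ (R, j) (a, i) := by
  intro hf
  rcases hf.cases_head with e | ⟨y, e, -⟩
  · exact ha.ne' (congrArg Prod.fst e)
  · exact lt_irrefl _ e.1

theorem PT.fl_pa (h : PT R S pa μ ht ch σ) {a j i : ℕ} (ha : a < R) :
    ¬ fl R pa μ (pa a, j) (a, i) := fun hf => by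
  have := h.ht_pa a ha
  rcases h.fl_ht hf with e | e
  · rw [show pa a = a from congrArg Prod.fst e] at this
    omega
  · simp only at e
    omega

theorem sfl_step {c j a i : ℕ} (hc : c < R) (hj : j < S) (hne : c ≠ a) :
    sfl R S pa μ (c, j) (a, i) ↔
      μ c (j + 1) = μ c j + 1 ∧ sfl R S pa μ (pa c, μ c j) (a, i) := by
  refine ⟨fun hf => ?_, fun hf => hf.2.head ⟨hc, hj, hf.1, rfl⟩⟩
  rcases hf.cases_head with e | ⟨y, e, hf⟩
  · exact absurd (congrArg Prod.fst e) hne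
  · exact ⟨e.2.2.1, e.2.2.2 ▸ hf⟩

theorem PT.xor (h : PT R S pa μ ht ch σ) {a : ℕ} (ha : a < R) (i : ℕ) : ∀ c ≤ R, ∀ s < S,
    (¬ (fl R pa μ (c, s) (a, i) ↔ fl R pa μ (c, s + 1) (a, i)) ↔
      (sfl R S pa μ (c, s) (a, i) ∨ 0 < i ∧ sfl R S pa μ (c, s) (a, i - 1))) ∧
    ¬ (sfl R S pa μ (c, s) (a, i) ∧ 0 < i ∧ sfl R S pa μ (c, s) (a, i - 1)) ∧
    (sfl R S pa μ (c, s) (a, i) → i < S) := by
  intro c
  induction hn : R - ht c using Nat.strong_induction_on generalizing c with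
  | _ n ih =>
    intro hc s hs
    by_cases e : c = a
    · subst e
      have : ∀ j k, sfl R S pa μ (c, j) (c, k) ↔ j = k := fun j k =>
        ⟨fun hf => h.fl_self.1 (sfl_fl hf), fun e => e ▸ Relation.ReflTransGen.refl⟩
      simp only [this, h.fl_self]
      omega
    rcases hc.lt_or_eq with hc | rfl
    · rw [fl_step hc e, fl_step hc e, sfl_step hc hs e, sfl_step hc hs e]
      have h1 := h.step c s
      have h2 := h.mu_le c (s + 1) hs
      by_cases e' : μ c (s + 1) = μ c s + 1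
      · have := h.ht_pa c hc
        have := h.ht_le _ (h.pa_le c hc)
        simpa only [e', true_and] using ih _ (by omega) _ rfl (h.pa_le c hc) (μ c s) (by omega)
      · simp [show μ c (s + 1) = μ c s by omega]
    · have : ∀ j k, ¬ sfl c S pa μ (c, j) (a, k) := fun j k hf => fl_root ha (sfl_fl hf)
      simp [this, fl_root ha]

theorem PT.pred' (h : PT R S pa μ ht ch σ) {a s : ℕ} (ha : a < R) (hs : s < S) (h0 : ht a ≠ 0) :
    pa (ch a s) = a ∧ μ (ch a s) (σ a s) = s ∧ μ (ch a s) (σ a s + 1) = s + 1 :=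
  (h.pred a ha s hs _ (h.pred_lt a ha s hs h0).1 _ (h.pred_lt a ha s hs h0).2).2 ⟨h0, rfl, rfl⟩

theorem PT.ht_ch (h : PT R S pa μ ht ch σ) {a s : ℕ} (ha : a < R) (hs : s < S) (h0 : ht a ≠ 0) :
    ht a = ht (ch a s) + 1 := by
  rw [← h.ht_pa _ (h.pred_lt a ha s hs h0).1, (h.pred' ha hs h0).1]

theorem PT.NB_rec (h : PT R S pa μ ht ch σ) (f : ℕ → ℕ → ℕ) {a s : ℕ} (ha : a < R) (hs : s < S) :
    NB R S pa μ f a s =
      if ht a = 0 then 0 else NB R S pa μ f (ch a s) (σ a s) + f (ch a s) (σ a s) := by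
  classical
  have key : ∀ c t, (sfl R S pa μ (c, t) (a, s) ∧ c ≠ a) ↔
      ht a ≠ 0 ∧ sfl R S pa μ (c, t) (ch a s, σ a s) := by
    intro c t
    refine ⟨fun ⟨h1, h2⟩ => ?_, fun ⟨h0, h1⟩ => ?_⟩
    · rcases h1.cases_tail with e | ⟨⟨u, j⟩, h1, e⟩
      · exact absurd (congrArg Prod.fst e).symm h2
      · obtain ⟨e1, e2, e3, e4⟩ := e
        simp only [Prod.mk.injEq] at e1 e2 e3 e4
        obtain ⟨b1, rfl, rfl⟩ := (h.pred a ha s hs u e1 j e2).1 ⟨e4.1.symm, e4.2.symm, by omega⟩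
        exact ⟨b1, h1⟩
    · obtain ⟨b1, b2, b3⟩ := h.pred' ha hs h0
      obtain ⟨b4, b5⟩ := h.pred_lt a ha s hs h0
      refine ⟨h1.tail ⟨b4, b5, by simp only; omega, by simp only [b1, b2]⟩, fun e => ?_⟩
      have := h.ht_ch ha hs h0
      rcases h.fl_ht (sfl_fl h1) with e' | e'
      · rw [← show c = ch a s from congrArg Prod.fst e', e] at this
        omega
      · simp only [e] at e'
        omega
  unfold NB
  simp only [key]
  split_ifs with h0
  · simp [h0]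
  obtain ⟨b4, b5⟩ := h.pred_lt a ha s hs h0
  have e : f (ch a s) (σ a s) = ∑ c ∈ range R, ∑ t ∈ range S,
      if t = σ a s then (if c = ch a s then f c t else 0) else 0 := by
    simp [b4, b5]
  rw [e, ← sum_add_distrib]
  refine sum_congr rfl fun c _ => ?_
  rw [← sum_add_distrib]
  refine sum_congr rfl fun t _ => ?_
  by_cases e1 : c = ch a s
  · have : sfl R S pa μ (ch a s, t) (ch a s, σ a s) ↔ t = σ a s :=
      ⟨fun hf => h.fl_self.1 (sfl_fl hf), fun e => e ▸ Relation.ReflTransGen.refl⟩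
    simp [e1, this, h0]
  · simp [e1, h0]

theorem PT.rec_eq (h : PT R S pa μ ht ch σ) (f : ℕ → ℕ → ℕ) (A : ℕ → ℕ → ℕ)
    (hA : ∀ a < R, ∀ s < S, A a s = if ht a = 0 then 0 else A (ch a s) (σ a s) + f (ch a s) (σ a s)) :
    ∀ a < R, ∀ s < S, A a s = NB R S pa μ f a s := by
  intro a
  induction hn : ht a using Nat.strong_induction_on generalizing a with
  | _ n ih =>
    intro ha s hs
    rw [hA a ha s hs, h.NB_rec f ha hs]
    split_ifs with h0
    · rfl
    · have := h.ht_ch ha hs h0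
      rw [ih _ (by omega) _ rfl (h.pred_lt a ha s hs h0).1 _ (h.pred_lt a ha s hs h0).2]

theorem PT.NB_one (h : PT R S pa μ ht ch σ) {a s : ℕ} (ha : a < R) (hs : s < S) :
    NB R S pa μ (fun _ _ => 1) a s = ht a :=
  (h.rec_eq _ (fun a _ => ht a) (fun a ha s hs => by
    split_ifs with h0
    exacts [h0, h.ht_ch ha hs h0]) a ha s hs).symm

theorem PT.ht_lt (h : PT R S pa μ ht ch σ) {a : ℕ} (ha : a < R) : ht a < R := by
  have := h.ht_pa a ha
  have := h.ht_le _ (h.pa_le a ha)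
  omega

/-- Parent after replacing every node by a path of `m` nodes. -/
def bpa (m : ℕ) (pa : ℕ → ℕ) (c : ℕ) : ℕ := if c % m + 1 < m then c + 1 else pa (c / m) * m

/-- Row maps after the replacement. -/
def bmu (m : ℕ) (μ : ℕ → ℕ → ℕ) (c j : ℕ) : ℕ := if c % m + 1 < m then j else μ (c / m) j

/-- Height after the replacement. -/
def bht (m : ℕ) (ht : ℕ → ℕ) (c : ℕ) : ℕ := ht (c / m) * m + c % m

/-- Child after the replacement. -/
def bch (m : ℕ) (ch : ℕ → ℕ → ℕ) (c s : ℕ) : ℕ :=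
  if c % m = 0 then ch (c / m) s * m + (m - 1) else c - 1

/-- Strip of the child after the replacement. -/
def bsi (m : ℕ) (σ : ℕ → ℕ → ℕ) (c s : ℕ) : ℕ := if c % m = 0 then σ (c / m) s else s

theorem exists_idx {R m c : ℕ} (hc : c < R * m) : ∃ u < R, ∃ i < m, c = u * m + i :=
  have hm : 0 < m := Nat.pos_of_ne_zero fun e => by simp [e] at hc
  ⟨c / m, lev_lt hc, c % m, Nat.mod_lt _ hm, (Nat.div_add_mod' c m).symm⟩

theorem idx_inj {m u u' i i' : ℕ} (hi : i < m) (hi' : i' < m) :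
    u * m + i = u' * m + i' ↔ u = u' ∧ i = i' :=
  ⟨fun e => ⟨by rw [← div_eq u hi, e, div_eq u' hi'], by rw [← mod_eq u hi, e, mod_eq u' hi']⟩,
    fun e => by rw [e.1, e.2]⟩

theorem PT.blow (h : PT R S pa μ ht ch σ) {m : ℕ} (hm : 0 < m) :
    PT (R * m) S (bpa m pa) (bmu m μ) (bht m ht) (bch m ch) (bsi m σ) where
  pa_le c hc := by
    unfold bpa
    split_ifs
    exacts [hc, Nat.mul_le_mul_right _ (h.pa_le _ (lev_lt hc))]
  ht_pa c hc := by
    obtain ⟨u, hu, i, hi, rfl⟩ := exists_idx hc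
    simp only [bpa, bht, div_eq u hi, mod_eq u hi]
    split_ifs with e
    · rw [add_assoc, div_eq u e, mod_eq u e, add_assoc]
    · rw [Nat.mul_div_cancel _ hm, Nat.mul_mod_left, h.ht_pa u hu, Nat.succ_mul]
      omega
  ht_le c hc := by
    rcases hc.lt_or_eq with hc | rfl
    · obtain ⟨u, hu, i, hi, rfl⟩ := exists_idx hc
      simp only [bht, div_eq u hi, mod_eq u hi]
      exact (idx_lt (h.ht_lt hu) hi).le
    · simp only [bht, Nat.mul_div_cancel _ hm, Nat.mul_mod_left]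
      exact Nat.mul_le_mul_right _ (h.ht_le R le_rfl)
  step c j := by
    unfold bmu
    split_ifs
    exacts [by omega, h.step _ _]
  mu_le c j hj := by
    unfold bmu
    split_ifs
    exacts [hj, h.mu_le _ _ hj]
  pred a ha s' hs' c hc s hs := by
    obtain ⟨u, hu, i, hi, rfl⟩ := exists_idx hc
    obtain ⟨v, hv, k, hk, rfl⟩ := exists_idx ha
    simp only [bpa, bmu, bht, bch, bsi, div_eq u hi, mod_eq u hi, div_eq v hk, mod_eq v hk]
    have hp := h.pred v hv s' hs' u hu s hs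
    have e1 : pa u * m = v * m + k ↔ pa u = v ∧ 0 = k := idx_inj hm hk
    have e2 : u * m + i = ch v s' * m + (m - 1) ↔ u = ch v s' ∧ i = m - 1 :=
      idx_inj hi (by omega)
    have e3 : ht v * m + k ≠ 0 ↔ ht v ≠ 0 ∨ k ≠ 0 := by
      simp only [ne_eq, Nat.add_eq_zero_iff, Nat.mul_eq_zero, hm.ne', or_false]
      tauto
    split_ifs with b1 b2 b2
    · have e4 : u * m + (i + 1) = v * m + k ↔ u = v ∧ i + 1 = k := idx_inj b1 hk
      rw [add_assoc, e4, e2]
      omega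
    · omega
    · rw [e1, e2, e3]
      omega
    · have e4 : u * m + i = v * m + (k - 1) ↔ u = v ∧ i = k - 1 := idx_inj hi (by omega)
      rw [e1, show v * m + k - 1 = v * m + (k - 1) by omega, e4]
      omega
  pred_lt a ha s hs h0 := by
    obtain ⟨v, hv, k, hk, rfl⟩ := exists_idx ha
    simp only [bht, bch, bsi, div_eq v hk, mod_eq v hk] at h0 ⊢
    split_ifs with b
    · have := h.pred_lt v hv s hs fun e => h0 (by simp [e, b])
      exact ⟨idx_lt this.1 (by omega), this.2⟩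
    · omega
  plan c c' hlt hc' e := by
    obtain ⟨u, hu, i, hi, rfl⟩ := exists_idx (hlt.trans hc')
    obtain ⟨v, hv, k, hk, rfl⟩ := exists_idx hc'
    simp only [bpa, bmu, bht, div_eq u hi, mod_eq u hi, div_eq v hk, mod_eq v hk] at e ⊢
    obtain ⟨e1, rfl⟩ := (idx_inj hi hk).1 e
    split_ifs
    · omega
    · rcases h.plan u v (lt_of_mul_lt_mul_right (a := m) (by omega) (Nat.zero_le _)) hv e1 with
        b | ⟨b, b'⟩
      · exact Or.inl (Nat.mul_lt_mul_of_pos_right b hm)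
      · exact Or.inr ⟨by rw [b], b'.imp (fun e => by rw [e]) id⟩

/-- Parent in the heap with `N` nodes. -/
def hpa (N v : ℕ) : ℕ := if v = 0 then N else (v - 1) / 2

/-- Row maps in the heap. -/
def hmu (h v j : ℕ) : ℕ := if v % 2 = 1 then j - h else min (j + h) (2 * h)

/-- Height in the heap. -/
def hht (N d v : ℕ) : ℕ := if v < N then d - Nat.log 2 (v + 1) else d + 1

/-- Child in the heap. -/
def hch (h v s : ℕ) : ℕ := if s < h then 2 * v + 1 else 2 * v + 2

/-- Strip of the child in the heap. -/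
def hsi (h : ℕ) (_ s : ℕ) : ℕ := if s < h then s + h else s - h

theorem hht_ne {N d v : ℕ} (hN : N + 1 = 2 ^ (d + 1)) (hv : v < N) :
    (hht N d v ≠ 0 ↔ 2 * v + 2 < N) ∧ Nat.log 2 (v + 1) ≤ d := by
  have h1 : Nat.log 2 (v + 1) < d ↔ v + 1 < 2 ^ d := Nat.log_lt_iff_lt_pow (by omega) (by omega)
  have h2 : Nat.log 2 (v + 1) < d + 1 ↔ v + 1 < 2 ^ (d + 1) :=
    Nat.log_lt_iff_lt_pow (by omega) (by omega)
  rw [pow_succ] at hN h2
  unfold hht
  rw [if_pos hv]
  omega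

theorem heap_pt {N d : ℕ} (hN : N + 1 = 2 ^ (d + 1)) (h : ℕ) :
    PT N (2 * h) (hpa N) (hmu h) (hht N d) (hch h) (hsi h) where
  pa_le u hu := by
    unfold hpa
    split_ifs <;> omega
  ht_pa u hu := by
    have h1 := (hht_ne hN hu).2
    unfold hpa hht
    by_cases e : u = 0
    · simp [e, show 0 < N by omega]
    · have h2 := Nat.log_div_base 2 (u + 1)
      have h3 : 0 < Nat.log 2 (u + 1) := Nat.log_pos (by omega) (by omega)
      rw [if_neg e, if_pos hu, if_pos (by omega), show (u - 1) / 2 + 1 = (u + 1) / 2 by omega]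
      omega
  ht_le u _ := by
    have : d + 1 < 2 ^ (d + 1) := Nat.lt_two_pow_self
    unfold hht
    split_ifs <;> omega
  step u j := by
    unfold hmu
    split_ifs <;> omega
  mu_le u j hj := by
    unfold hmu
    split_ifs <;> omega
  pred a ha s' hs' u hu s hs := by
    rw [(hht_ne hN ha).1]
    have : N % 2 = 1 := by
      rw [pow_succ] at hN
      omega
    unfold hpa hmu hch hsi
    split_ifs <;> omega
  pred_lt a ha s hs h0 := by
    rw [(hht_ne hN ha).1] at h0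
    unfold hch hsi
    split_ifs <;> omega
  plan u u' hlt hu' e := by
    have h1 := (hht_ne hN hu').2
    by_cases e0 : u = 0
    · have h3 : 0 < Nat.log 2 (u' + 1) := Nat.log_pos (by omega) (by omega)
      simp [hht, e0, hu', show 0 < N by omega] at e
      omega
    unfold hpa hmu
    split_ifs <;> omega

end Pool.Agent.Work.MP_1e0b64_lc.X
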